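import Pool.Agent.H494R3.GT.PropL

set_option autoImplicit false
set_option linter.style.haveILetI false
set_option linter.unusedVariables false

/-!
# Definitions used in the statement about box spaces
-/

namespace Pool.Agent.H494R3.GT

/-- A box space of graphs: a sequence of finite graphs with degrees bounded by a constant
independent of the index and with number of vertices tending to infinity. -/
structure BoxSpace : Type 1 where
  /-- vertices of the `i`-th graph -/
  V : ℕ → Type
  finite : ∀ i, Finite (V i)
  /-- the `i`-th graph -/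
  G : ∀ i, SimpleGraph (V i)
  /-- uniform degree bound -/
  deg : ℕ
  deg_le : ∀ i (a : V i), {b | (G i).Adj a b}.ncard ≤ deg
  card_tendsto : Filter.Tendsto (fun i => Nat.card (V i)) Filter.atTop Filter.atTop

/-- points of the disjoint union -/
abbrev BoxSpace.Pt (X : BoxSpace) : Type := Σ i, X.V i

/-- The disjoint union graph. Its extended distance `edist` is the graph distance inside each
connected component of each `X_i` and is infinite between different components. -/
def BoxSpace.graph (X : BoxSpace) : SimpleGraph X.Pt where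
  Adj p q := ∃ (i : ℕ) (a b : X.V i), p = ⟨i, a⟩ ∧ q = ⟨i, b⟩ ∧ (X.G i).Adj a b
  symm := ⟨by
    rintro p q ⟨i, a, b, hp, hq, h⟩
    exact ⟨i, b, a, hq, hp, h.symm⟩⟩
  loopless := ⟨by
    rintro p ⟨i, a, b, hp, hq, h⟩
    rw [hp] at hq
    obtain ⟨_, h2⟩ := Sigma.mk.inj hq
    rw [eq_of_heq h2] at h
    exact (X.G i).loopless.irrefl _ h⟩

/-- The Hilbert space `ℓ²(P)`. -/
def Ell2 (P : Type) : Type := lp (fun _ : P => ℂ) 2

/-- the standard norm -/
noncomputable def ell2Norm (P : Type) : NormedAddCommGroup (lp (fun _ : P => ℂ) 2) := inferInstance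

noncomputable instance Ell2.instNorm (P : Type) : NormedAddCommGroup (Ell2 P) := ell2Norm P

/-- the standard inner product -/
noncomputable def ell2Inner (P : Type) : InnerProductSpace ℂ (lp (fun _ : P => ℂ) 2) :=
  inferInstance

noncomputable instance Ell2.instInner (P : Type) : InnerProductSpace ℂ (Ell2 P) := ell2Inner P

instance Ell2.instComplete (P : Type) : CompleteSpace (Ell2 P) :=
  (inferInstance : CompleteSpace (lp (fun _ : P => ℂ) 2))

/-- the value `ξ(x)` -/
noncomputable def Ell2.val {P : Type} (ξ : Ell2 P) (x : P) : ℂ :=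
  (show lp (fun _ : P => ℂ) 2 from ξ) x

open scoped Classical in
/-- basis vectors `δ_x` -/
noncomputable def delta {P : Type} (x : P) : Ell2 P :=
  (lp.single 2 x (1 : ℂ) : lp (fun _ : P => ℂ) 2)

/-- Bounded operators on `ℓ²(P)`, with their standard `*`-algebra structure. -/
def BOp (P : Type) : Type := Ell2 P →L[ℂ] Ell2 P

/-- the standard ring structure of bounded operators -/
noncomputable def bopRing (P : Type) : Ring (Ell2 P →L[ℂ] Ell2 P) := inferInstance

noncomputable instance BOp.instRing (P : Type) : Ring (BOp P) := bopRing P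

/-- the standard star structure (adjoint) of bounded operators -/
noncomputable def bopStar (P : Type) : StarRing (Ell2 P →L[ℂ] Ell2 P) := inferInstance

noncomputable instance BOp.instStarRing (P : Type) : StarRing (BOp P) := bopStar P

/-- the standard algebra structure of bounded operators -/
noncomputable def bopAlg (P : Type) : Algebra ℂ (Ell2 P →L[ℂ] Ell2 P) := inferInstance

noncomputable instance BOp.instAlgebra (P : Type) : Algebra ℂ (BOp P) := bopAlg P

instance BOp.instStarModule (P : Type) : StarModule ℂ (BOp P) :=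
  (inferInstance : StarModule ℂ (Ell2 P →L[ℂ] Ell2 P))

/-- the vector `T ξ` -/
noncomputable def BOp.app {P : Type} (T : BOp P) (ξ : Ell2 P) : Ell2 P :=
  (show Ell2 P →L[ℂ] Ell2 P from T) ξ

/-- the matrix coefficient `⟨T δ_x, δ_y⟩` (inner product conjugate-linear in the second
variable, as for the mathematical notation `⟨T δ_x, δ_y⟩`). -/
noncomputable def BOp.entry {P : Type} (T : BOp P) (x y : P) : ℂ :=
  inner ℂ (delta y) (T.app (delta x))

/-- The algebraic Roe algebra, as a star subalgebra: bounded operators `T` on `ℓ²(X)` for which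
there is `R` with `⟨T δ_x, δ_y⟩ = 0` whenever `d(x,y) ≥ R`. -/
noncomputable def BoxSpace.roeSub (X : BoxSpace) : StarSubalgebra ℂ (BOp X.Pt) where
  carrier := {T | ∃ R : ℕ, ∀ x y : X.Pt, (R : ℕ∞) ≤ X.graph.edist x y → T.entry x y = 0}
  mul_mem' := by
    rintro T S ⟨R, h⟩ ⟨R', h'⟩
    exact ⟨R + R', PropLE.mul (Gr := X.graph) h h'⟩
  add_mem' := by
    rintro T S ⟨R, h⟩ ⟨R', h'⟩
    exact ⟨max R R', PropLE.add (Gr := X.graph) (PropLE.mono h (le_max_left _ _))
      (PropLE.mono h' (le_max_right _ _))⟩
  algebraMap_mem' c := ⟨1, by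
    have := PropLE.one_smul (Gr := X.graph) c
    rw [← Algebra.algebraMap_eq_smul_one] at this
    exact this⟩
  star_mem' := by
    rintro T ⟨R, h⟩
    exact ⟨R, PropLE.star (Gr := X.graph) h⟩

/-- The algebraic Roe algebra `ℂ[X]`. -/
def BoxSpace.Roe (X : BoxSpace) : Type := X.roeSub

/-- the ring structure of the star subalgebra -/
noncomputable def BoxSpace.roeRing (X : BoxSpace) : Ring X.roeSub := inferInstance

noncomputable instance BoxSpace.Roe.instRing (X : BoxSpace) : Ring X.Roe := X.roeRing

/-- the star structure of the star subalgebra -/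
noncomputable def BoxSpace.roeStar (X : BoxSpace) : StarRing X.roeSub := inferInstance

noncomputable instance BoxSpace.Roe.instStarRing (X : BoxSpace) : StarRing X.Roe := X.roeStar

/-- the algebra structure of the star subalgebra -/
noncomputable def BoxSpace.roeAlg (X : BoxSpace) : Algebra ℂ X.roeSub := inferInstance

noncomputable instance BoxSpace.Roe.instAlgebra (X : BoxSpace) : Algebra ℂ X.Roe := X.roeAlg

/-- an element of `ℂ[X]` as an operator on `ℓ²(X)` -/
noncomputable def BoxSpace.Roe.op {X : BoxSpace} (D : X.Roe) : BOp X.Pt :=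
  (show X.roeSub from D).1

/-- `D` is the graph Laplacian: `(D ξ)(x) = ∑_{y ∼ x} (ξ(x) - ξ(y))`. -/
def BoxSpace.IsLaplacian (X : BoxSpace) (D : X.Roe) : Prop :=
  ∀ (ξ : Ell2 X.Pt) (x : X.Pt),
    (D.op.app ξ).val x = ∑ᶠ y ∈ X.graph.neighborSet x, (ξ.val x - ξ.val y)

/-- Geometric property (T) with Laplacian `D`: a uniform spectral gap `c > 0` of `π(D)` for every
unital `*`-homomorphism `π` of the algebraic Roe algebra into a unital C*-algebra `B`
(in particular for the inclusion in the maximal uniform Roe algebra). -/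
def BoxSpace.GeometricT (X : BoxSpace) (D : X.Roe) : Prop :=
  ∃ c : ℝ, 0 < c ∧ ∀ (B : Type) [CStarAlgebra B] (π : X.Roe →⋆ₐ[ℂ] B),
    spectrum ℂ (π D) ⊆ {0} ∪ {r : ℂ | ∃ t : ℝ, c ≤ t ∧ r = t}

/-- finite sums of hermitian squares in the algebraic Roe algebra -/
def BoxSpace.IsSOS (X : BoxSpace) (a : X.Roe) : Prop :=
  ∃ (n : ℕ) (ξ : Fin n → X.Roe), a = ∑ k, star (ξ k) * ξ k

end Pool.Agent.H494R3.GT
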