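import Pool.Agent.H494R3.GT.PropL
import Pool.Agent.H494R3.GT.Stmt

set_option autoImplicit false
set_option linter.style.haveILetI false
set_option linter.unusedVariables false

namespace Pool.Agent.H494R3.GT

namespace BoxSpace

variable (X : BoxSpace)

/-- The algebraic Roe algebra: bounded operators `T` on `ℓ²(X)` for which there is `R` with
`⟨T δ_x, δ_y⟩ = 0` whenever `d(x,y) ≥ R`. -/
def algRoe : StarSubalgebra ℂ (L2 X.Pt →L[ℂ] L2 X.Pt) where
  carrier := {T | ∃ R : ℕ, ∀ x y : X.Pt, (R : ℕ∞) ≤ X.graph.edist x y →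
    inner ℂ (dl y) (T (dl x)) = (0 : ℂ)}
  mul_mem' := by
    rintro T S ⟨R, h⟩ ⟨R', h'⟩
    exact ⟨R + R', PropLE.mul (Gr := X.graph) h h'⟩
  add_mem' := by
    rintro T S ⟨R, h⟩ ⟨R', h'⟩
    exact ⟨max R R', PropLE.add (Gr := X.graph) (PropLE.mono h (le_max_left _ _))
      (PropLE.mono h' (le_max_right _ _))⟩
  algebraMap_mem' c := ⟨1, by
    have := PropLE.one_smul (Gr := X.graph) c
    rwa [← Algebra.algebraMap_eq_smul_one] at this⟩
  star_mem' := by
    rintro T ⟨R, h⟩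
    exact ⟨R, PropLE.star (Gr := X.graph) h⟩

/-- `D` is the graph Laplacian: `(D ξ)(x) = ∑_{y ∼ x} (ξ(x) - ξ(y))`. -/
def IsLaplacian' (D : X.algRoe) : Prop :=
  ∀ (ξ : L2 X.Pt) (x : X.Pt),
    ((D : L2 X.Pt →L[ℂ] L2 X.Pt) ξ) x = ∑ᶠ y ∈ X.graph.neighborSet x, (ξ x - ξ y)

/-- Geometric property (T) with Laplacian `D`: a uniform spectral gap `c > 0` of `π(D)` for every
unital `*`-homomorphism `π` of the algebraic Roe algebra into a unital C*-algebra `B`
(in particular for the inclusion in the maximal uniform Roe algebra). -/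
def GeometricT' (D : X.algRoe) : Prop :=
  ∃ c : ℝ, 0 < c ∧ ∀ (B : Type) [CStarAlgebra B] (π : X.algRoe →⋆ₐ[ℂ] B),
    spectrum ℂ (π D) ⊆ {0} ∪ {r : ℂ | ∃ t : ℝ, c ≤ t ∧ r = t}

/-- finite sums of hermitian squares in the algebraic Roe algebra -/
def IsSOS' (a : X.algRoe) : Prop := ∃ (n : ℕ) (ξ : Fin n → X.algRoe), a = ∑ k, star (ξ k) * ξ k

end BoxSpace

end Pool.Agent.H494R3.GT
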