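import Mathlib

set_option autoImplicit false
set_option linter.style.haveILetI false
set_option linter.unusedVariables false

namespace Pool.Agent.H494R3.GT

open scoped CStarAlgebra ComplexOrder

section
variable {A : Type*} [CStarAlgebra A] [PartialOrder A] [StarOrderedRing A]

lemma proj_nonneg {p : A} (h : p * p = p) (hs : star p = p) : 0 ≤ p := by
  have := star_mul_self_nonneg p
  rwa [hs, h] at this

/-- Two projections `P, Q` and a projection `e` commuting with both such that `P Q P = ε² P`,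
`Q P Q = ε² Q` under `e`, and `P, Q` commute under `1 - e`. -/
theorem angle_ineq {P Q e : A} {ε : ℝ} (hε0 : 0 < ε) (hε1 : ε < 1)
    (hP : P * P = P) (hPs : star P = P) (hQ : Q * Q = Q) (hQs : star Q = Q)
    (he : e * e = e) (hes : star e = e) (heP : e * P = P * e) (heQ : e * Q = Q * e)
    (h1 : e * (P * Q * P) = ((ε ^ 2 : ℝ) : ℂ) • (e * P))
    (h2 : e * (Q * P * Q) = ((ε ^ 2 : ℝ) : ℂ) • (e * Q))
    (h3 : (1 - e) * (P * Q) = (1 - e) * (Q * P)) :
    0 ≤ (1 - P) * (1 - Q) + (1 - Q) * (1 - P) + (ε : ℂ) • ((1 - P) + (1 - Q)) := by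
  set δ : ℂ := ((ε ^ 2 : ℝ) : ℂ) with hδ
  have hδε : δ = (ε : ℂ) * (ε : ℂ) := by rw [hδ]; push_cast; ring
  -- part under 1 - e
  have hc : (1 - e) * (1 - P) * ((1 - e) * (1 - Q)) = (1 - e) * ((1 - P) * (1 - Q)) := by
    have e1 : (1 - P) * (1 - e) = (1 - e) * (1 - P) := by
      have : (1 - P) * (1 - e) = 1 - P - e + P * e := by noncomm_ring
      rw [this, ← heP]; noncomm_ring
    have e2 : (1 - e) * (1 - e) = 1 - e := by
      have : (1 - e) * (1 - e) = 1 - e - e + e * e := by noncomm_ring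
      rw [this, he]; abel
    calc (1 - e) * (1 - P) * ((1 - e) * (1 - Q)) = (1 - e) * ((1 - P) * (1 - e)) * (1 - Q) := by
          noncomm_ring
      _ = (1 - e) * ((1 - e) * (1 - P)) * (1 - Q) := by rw [e1]
      _ = ((1 - e) * (1 - e)) * (1 - P) * (1 - Q) := by noncomm_ring
      _ = _ := by rw [e2]; noncomm_ring
  have hcomm : (1 - e) * ((1 - P) * (1 - Q)) = (1 - e) * ((1 - Q) * (1 - P)) := by
    have a1 : (1 - e) * ((1 - P) * (1 - Q)) = (1 - e) * (1 - P - Q) + (1 - e) * (P * Q) := by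
      noncomm_ring
    have a2 : (1 - e) * ((1 - Q) * (1 - P)) = (1 - e) * (1 - P - Q) + (1 - e) * (Q * P) := by
      noncomm_ring
    rw [a1, a2, h3]
  have hPP : (1 - P) * (1 - P) = 1 - P := by
    have : (1 - P) * (1 - P) = 1 - P - P + P * P := by noncomm_ring
    rw [this, hP]; abel
  have hQQ : (1 - Q) * (1 - Q) = 1 - Q := by
    have : (1 - Q) * (1 - Q) = 1 - Q - Q + Q * Q := by noncomm_ring
    rw [this, hQ]; abel
  have hee : (1 - e) * (1 - e) = 1 - e := by
    have : (1 - e) * (1 - e) = 1 - e - e + e * e := by noncomm_ring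
    rw [this, he]; abel
  have heP' : (1 - e) * (1 - P) = (1 - P) * (1 - e) := by
    have a1 : (1 - e) * (1 - P) = 1 - e - P + e * P := by noncomm_ring
    have a2 : (1 - P) * (1 - e) = 1 - e - P + P * e := by noncomm_ring
    rw [a1, a2, heP]
  have heQ' : (1 - e) * (1 - Q) = (1 - Q) * (1 - e) := by
    have a1 : (1 - e) * (1 - Q) = 1 - e - Q + e * Q := by noncomm_ring
    have a2 : (1 - Q) * (1 - e) = 1 - e - Q + Q * e := by noncomm_ring
    rw [a1, a2, heQ]
  have pos1 : 0 ≤ (1 - e) * ((1 - P) * (1 - Q)) := by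
    apply proj_nonneg
    · calc (1 - e) * ((1 - P) * (1 - Q)) * ((1 - e) * ((1 - P) * (1 - Q)))
          = (1 - e) * ((1 - P) * ((1 - Q) * (1 - e)) * ((1 - P) * (1 - Q))) := by noncomm_ring
        _ = (1 - e) * ((1 - P) * (1 - e)) * ((1 - Q) * ((1 - P) * (1 - Q))) := by
            rw [← heQ']; noncomm_ring
        _ = ((1 - e) * (1 - e)) * ((1 - P) * (1 - Q)) * ((1 - P) * (1 - Q)) := by
            rw [← heP']; noncomm_ring
        _ = ((1 - e) * ((1 - P) * (1 - Q))) * ((1 - P) * (1 - Q)) := by rw [hee]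
        _ = ((1 - e) * ((1 - Q) * (1 - P))) * ((1 - P) * (1 - Q)) := by rw [hcomm]
        _ = (1 - e) * ((1 - Q) * ((1 - P) * (1 - P)) * (1 - Q)) := by noncomm_ring
        _ = ((1 - e) * ((1 - Q) * (1 - P))) * (1 - Q) := by rw [hPP]; noncomm_ring
        _ = ((1 - e) * ((1 - P) * (1 - Q))) * (1 - Q) := by rw [hcomm]
        _ = (1 - e) * ((1 - P) * ((1 - Q) * (1 - Q))) := by noncomm_ring
        _ = _ := by rw [hQQ]
    · rw [star_mul, star_mul, star_sub, star_sub, star_sub, star_one, hPs, hQs, hes]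
      calc (1 - Q) * (1 - P) * (1 - e) = (1 - Q) * ((1 - P) * (1 - e)) := by noncomm_ring
        _ = ((1 - Q) * (1 - e)) * (1 - P) := by rw [← heP']; noncomm_ring
        _ = (1 - e) * ((1 - Q) * (1 - P)) := by rw [← heQ']; noncomm_ring
        _ = _ := hcomm.symm
  have pos2 : 0 ≤ (1 - e) * (1 - P) := by
    apply proj_nonneg
    · calc (1 - e) * (1 - P) * ((1 - e) * (1 - P)) = (1 - e) * ((1 - P) * (1 - e)) * (1 - P) := by
            noncomm_ring
        _ = ((1 - e) * (1 - e)) * ((1 - P) * (1 - P)) := by rw [← heP']; noncomm_ring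
        _ = _ := by rw [hee, hPP]
    · rw [star_mul, star_sub, star_sub, star_one, hPs, hes, heP']
  have pos3 : 0 ≤ (1 - e) * (1 - Q) := by
    apply proj_nonneg
    · calc (1 - e) * (1 - Q) * ((1 - e) * (1 - Q)) = (1 - e) * ((1 - Q) * (1 - e)) * (1 - Q) := by
            noncomm_ring
        _ = ((1 - e) * (1 - e)) * ((1 - Q) * (1 - Q)) := by rw [← heQ']; noncomm_ring
        _ = _ := by rw [hee, hQQ]
    · rw [star_mul, star_sub, star_sub, star_one, hQs, hes, heQ']
  -- part under e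
  set S : A := e * (P + Q) with hS
  set W : A := e * (P * Q + Q * P) with hW
  have eS : e * S = S := by rw [hS, ← mul_assoc, he]
  have eW : e * W = W := by rw [hW, ← mul_assoc, he]
  have hPe : ∀ x : A, P * (e * x) = e * (P * x) := by
    intro x; rw [← mul_assoc, ← heP, mul_assoc]
  have hQe : ∀ x : A, Q * (e * x) = e * (Q * x) := by
    intro x; rw [← mul_assoc, ← heQ, mul_assoc]
  have hee' : ∀ x : A, e * (e * x) = e * x := by
    intro x; rw [← mul_assoc, he]
  have hSS : S * S = S + W := by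
    have : S * S = e * (e * (P * P + P * Q + Q * P + Q * Q)) := by
      rw [hS]
      calc e * (P + Q) * (e * (P + Q)) = e * (P * (e * (P + Q)) + Q * (e * (P + Q))) := by
            noncomm_ring
        _ = e * (e * (P * (P + Q)) + e * (Q * (P + Q))) := by rw [hPe, hQe]
        _ = _ := by noncomm_ring
    rw [this, hee', hP, hQ, hS, hW]
    noncomm_ring
  have hPQP : e * (P * (Q * P)) = δ • (e * P) := by rw [← mul_assoc P Q P]; exact h1
  have hQPQ : e * (Q * (P * Q)) = δ • (e * Q) := by rw [← mul_assoc Q P Q]; exact h2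
  have hSW : S * W = W + δ • S := by
    have : S * W = e * (e * ((P * P) * Q + P * (Q * P) + Q * (P * Q) + (Q * Q) * P)) := by
      rw [hS, hW]
      calc e * (P + Q) * (e * (P * Q + Q * P))
          = e * (P * (e * (P * Q + Q * P)) + Q * (e * (P * Q + Q * P))) := by noncomm_ring
        _ = e * (e * (P * (P * Q + Q * P)) + e * (Q * (P * Q + Q * P))) := by rw [hPe, hQe]
        _ = _ := by noncomm_ring
    rw [this, hee', hP, hQ, mul_add, mul_add, mul_add, hPQP, hQPQ, hS, hW, mul_add, mul_add,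
      smul_add]
    abel
  have hWS : W * S = W + δ • S := by
    have : W * S = e * (e * (P * (Q * P) + P * (Q * Q) + Q * (P * P) + Q * (P * Q))) := by
      rw [hS, hW]
      calc e * (P * Q + Q * P) * (e * (P + Q))
          = e * (P * (Q * (e * (P + Q))) + Q * (P * (e * (P + Q)))) := by noncomm_ring
        _ = e * (e * (P * (Q * (P + Q))) + e * (Q * (P * (P + Q)))) := by
            rw [hQe, hPe, hPe, hQe]
        _ = _ := by noncomm_ring
    rw [this, hee', hP, hQ, mul_add, mul_add, mul_add, hPQP, hQPQ, hS, hW, mul_add, mul_add,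
      smul_add]
    abel
  have hPQPQ : e * (P * Q * (P * Q)) = δ • (e * (P * Q)) := by
    calc e * (P * Q * (P * Q)) = (e * (P * (Q * P))) * Q := by noncomm_ring
      _ = δ • (e * (P * Q)) := by rw [hPQP, smul_mul_assoc, mul_assoc]
  have hQPQP : e * (Q * P * (Q * P)) = δ • (e * (Q * P)) := by
    calc e * (Q * P * (Q * P)) = (e * (Q * (P * Q))) * P := by noncomm_ring
      _ = δ • (e * (Q * P)) := by rw [hQPQ, smul_mul_assoc, mul_assoc]
  have hPQQP : e * (P * Q * (Q * P)) = δ • (e * P) := by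
    calc e * (P * Q * (Q * P)) = e * (P * ((Q * Q) * P)) := by noncomm_ring
      _ = _ := by rw [hQ, hPQP]
  have hQPPQ : e * (Q * P * (P * Q)) = δ • (e * Q) := by
    calc e * (Q * P * (P * Q)) = e * (Q * ((P * P) * Q)) := by noncomm_ring
      _ = _ := by rw [hP, hQPQ]
  have hWW : W * W = δ • (W + S) := by
    have : W * W = e * (e * (P * Q * (P * Q) + P * Q * (Q * P) + Q * P * (P * Q)
        + Q * P * (Q * P))) := by
      rw [hW]
      calc e * (P * Q + Q * P) * (e * (P * Q + Q * P))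
          = e * (P * (Q * (e * (P * Q + Q * P))) + Q * (P * (e * (P * Q + Q * P)))) := by
            noncomm_ring
        _ = e * (e * (P * (Q * (P * Q + Q * P))) + e * (Q * (P * (P * Q + Q * P)))) := by
            rw [hQe, hPe, hPe, hQe]
        _ = _ := by noncomm_ring
    rw [this, hee', mul_add, mul_add, mul_add, hPQPQ, hPQQP, hQPPQ, hQPQP, hW, hS, mul_add,
      mul_add, smul_add, smul_add, smul_add]
    abel
  have hSs : star S = S := by
    rw [hS, star_mul, star_add, hPs, hQs, hes, add_mul, ← heP, ← heQ, mul_add]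
  have hWs : star W = W := by
    rw [hW, star_mul, star_add, star_mul, star_mul, hPs, hQs, hes]
    have q1 : (Q * P) * e = e * (Q * P) := by
      rw [mul_assoc, ← heP, ← mul_assoc, ← heQ, mul_assoc]
    have q2 : (P * Q) * e = e * (P * Q) := by
      rw [mul_assoc, ← heQ, ← mul_assoc, ← heP, mul_assoc]
    rw [add_mul, q1, q2, mul_add, add_comm]
  have hεC : (ε : ℂ) ≠ 0 := by exact_mod_cast hε0.ne'
  have hε1C : (1 - (ε : ℂ)) ≠ 0 := by
    have : (1 - ε) ≠ 0 := by linarith
    exact_mod_cast this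
  have hε2C : (1 + (ε : ℂ)) ≠ 0 := by
    have : (1 + ε) ≠ 0 := by linarith
    exact_mod_cast this
  -- E_- and E_+
  set Em : A := ((1 / (2 * ε * (1 - ε)) : ℝ) : ℂ) • ((ε : ℂ) • S - W) with hEm
  set Ep : A := ((1 / (2 * ε * (1 + ε)) : ℝ) : ℂ) • ((ε : ℂ) • S + W) with hEp
  have hm2 : ((ε : ℂ) • S - W) * ((ε : ℂ) • S - W)
      = (2 * (ε : ℂ) * (1 - ε)) • ((ε : ℂ) • S - W) := by
    have : ((ε : ℂ) • S - W) * ((ε : ℂ) • S - W)
        = ((ε : ℂ) * ε) • (S * S) - (ε : ℂ) • (S * W) - (ε : ℂ) • (W * S) + W * W := by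
      rw [sub_mul, mul_sub, mul_sub, smul_mul_smul_comm, smul_mul_assoc, mul_smul_comm]
      abel
    rw [this, hSS, hSW, hWS, hWW, hδε]
    module
  have hp2 : ((ε : ℂ) • S + W) * ((ε : ℂ) • S + W)
      = (2 * (ε : ℂ) * (1 + ε)) • ((ε : ℂ) • S + W) := by
    have : ((ε : ℂ) • S + W) * ((ε : ℂ) • S + W)
        = ((ε : ℂ) * ε) • (S * S) + (ε : ℂ) • (S * W) + (ε : ℂ) • (W * S) + W * W := by
      rw [add_mul, mul_add, mul_add, smul_mul_smul_comm, smul_mul_assoc, mul_smul_comm]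
      abel
    rw [this, hSS, hSW, hWS, hWW, hδε]
    module
  have hpm : ((ε : ℂ) • S + W) * ((ε : ℂ) • S - W) = 0 := by
    have : ((ε : ℂ) • S + W) * ((ε : ℂ) • S - W)
        = ((ε : ℂ) * ε) • (S * S) - (ε : ℂ) • (S * W) + (ε : ℂ) • (W * S) - W * W := by
      rw [add_mul, mul_sub, mul_sub, smul_mul_smul_comm, smul_mul_assoc, mul_smul_comm]
      abel
    rw [this, hSS, hSW, hWS, hWW, hδε]
    module
  have hmp : ((ε : ℂ) • S - W) * ((ε : ℂ) • S + W) = 0 := by
    have : ((ε : ℂ) • S - W) * ((ε : ℂ) • S + W)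
        = ((ε : ℂ) * ε) • (S * S) + (ε : ℂ) • (S * W) - (ε : ℂ) • (W * S) - W * W := by
      rw [sub_mul, mul_add, mul_add, smul_mul_smul_comm, smul_mul_assoc, mul_smul_comm]
      abel
    rw [this, hSS, hSW, hWS, hWW, hδε]
    module
  have Em2 : Em * Em = Em := by
    rw [hEm, smul_mul_smul_comm, hm2, smul_smul]
    congr 1
    push_cast
    field_simp
  have Ep2 : Ep * Ep = Ep := by
    rw [hEp, smul_mul_smul_comm, hp2, smul_smul]
    congr 1
    push_cast
    field_simp
  have Epm : Ep * Em = 0 := by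
    rw [hEm, hEp, smul_mul_smul_comm, hpm, smul_zero]
  have Emp : Em * Ep = 0 := by
    rw [hEm, hEp, smul_mul_smul_comm, hmp, smul_zero]
  have Ems : star Em = Em := by
    rw [hEm, star_smul, star_sub, star_smul, hSs, hWs]
    simp
  have Eps : star Ep = Ep := by
    rw [hEp, star_smul, star_add, star_smul, hSs, hWs]
    simp
  have eEm : e * Em = Em := by
    rw [hEm, mul_smul_comm, mul_sub e, mul_smul_comm (ε : ℂ) e S, eS, eW]
  have eEp : e * Ep = Ep := by
    rw [hEp, mul_smul_comm, mul_add e, mul_smul_comm (ε : ℂ) e S, eS, eW]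
  have Eme : Em * e = Em := by
    have := congrArg star eEm
    rwa [star_mul, hes, Ems] at this
  have Epe : Ep * e = Ep := by
    have := congrArg star eEp
    rwa [star_mul, hes, Eps] at this
  set E0 : A := e - Ep - Em with hE0
  have E02 : E0 * E0 = E0 := by
    have : E0 * E0 = e * e - e * Ep - e * Em - Ep * e + Ep * Ep + Ep * Em - Em * e + Em * Ep
        + Em * Em := by rw [hE0]; noncomm_ring
    rw [this, he, eEp, eEm, Epe, Eme, Ep2, Em2, Epm, Emp, hE0]
    abel
  have E0s : star E0 = E0 := by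
    rw [hE0, star_sub, star_sub, hes, Eps, Ems]
  have hEm0 : 0 ≤ Em := proj_nonneg Em2 Ems
  have hE00 : 0 ≤ E0 := proj_nonneg E02 E0s
  -- decomposition
  have key : (1 - P) * (1 - Q) + (1 - Q) * (1 - P) + (ε : ℂ) • ((1 - P) + (1 - Q))
      = ((2 : ℝ) • ((1 - e) * ((1 - P) * (1 - Q))) + ε • ((1 - e) * (1 - P))
        + ε • ((1 - e) * (1 - Q)))
        + ((2 * (1 + ε)) • E0 + (2 * ε * (1 + ε)) • Em) := by
    have r1 : ∀ (r : ℝ) (x : A), r • x = (r : ℂ) • x := fun r x => (Complex.coe_smul r x).symm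
    have k1 : ((2 * (1 + ε)) • E0 + (2 * ε * (1 + ε)) • Em)
        = (2 * (1 + (ε : ℂ))) • e - (2 + (ε : ℂ)) • S + W := by
      rw [hE0, hEm, hEp, r1, r1]
      push_cast
      have h5 : (2 * (1 + (ε : ℂ))) • (e - (1 / (2 * (ε : ℂ) * (1 + ε))) • ((ε : ℂ) • S + W) -
          (1 / (2 * (ε : ℂ) * (1 - ε))) • ((ε : ℂ) • S - W)) +
          (2 * (ε : ℂ) * (1 + ε)) • (1 / (2 * (ε : ℂ) * (1 - ε))) • ((ε : ℂ) • S - W)
          = (2 * (1 + (ε : ℂ))) • e
            - (2 * (1 + (ε : ℂ)) * (1 / (2 * (ε : ℂ) * (1 + ε)))) • ((ε : ℂ) • S + W)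
            - ((2 * (1 + (ε : ℂ)) - 2 * (ε : ℂ) * (1 + ε)) * (1 / (2 * (ε : ℂ) * (1 - ε)))) •
              ((ε : ℂ) • S - W) := by module
      rw [h5]
      have h6 : 2 * (1 + (ε : ℂ)) * (1 / (2 * (ε : ℂ) * (1 + ε))) = 1 / ε := by
        field_simp
      have h7 : (2 * (1 + (ε : ℂ)) - 2 * (ε : ℂ) * (1 + ε)) * (1 / (2 * (ε : ℂ) * (1 - ε)))
          = (1 + ε) / ε := by
        field_simp
      rw [h6, h7]
      have h8 : (1 / (ε : ℂ)) • ((ε : ℂ) • S + W) = S + (1 / (ε : ℂ)) • W := by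
        rw [smul_add, smul_smul, one_div, inv_mul_cancel₀ hεC, one_smul]
      have h9 : ((1 + (ε : ℂ)) / ε) • ((ε : ℂ) • S - W) = (1 + (ε : ℂ)) • S
          - (1 / (ε : ℂ) + 1) • W := by
        rw [smul_sub, smul_smul, div_mul_cancel₀ _ hεC]
        congr 2
        rw [add_div, div_self hεC, add_comm]
      rw [h8, h9]
      module
    rw [k1, r1, r1, r1]
    have k2 : (1 - e) * ((1 - P) * (1 - Q)) + (1 - e) * ((1 - P) * (1 - Q))
        = (1 - e) * ((1 - P) * (1 - Q)) + (1 - e) * ((1 - Q) * (1 - P)) := by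
      rw [← hcomm]
    have k3 : ((2 : ℝ) : ℂ) • ((1 - e) * ((1 - P) * (1 - Q)))
        = (1 - e) * ((1 - P) * (1 - Q)) + (1 - e) * ((1 - Q) * (1 - P)) := by
      rw [← k2]
      push_cast
      module
    rw [k3, hS, hW]
    have k4 : (1 - P) * (1 - Q) + (1 - Q) * (1 - P) = (2 : ℂ) • (1 : A) - (2 : ℂ) • (P + Q)
        + (P * Q + Q * P) := by
      have : (1 - P) * (1 - Q) + (1 - Q) * (1 - P) = 1 + 1 - (P + Q) - (P + Q)
          + (P * Q + Q * P) := by noncomm_ring
      rw [this]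
      module
    have k5 : (1 - e) * ((1 - P) * (1 - Q)) + (1 - e) * ((1 - Q) * (1 - P))
        = (1 - e) * ((1 - P) * (1 - Q) + (1 - Q) * (1 - P)) := by rw [mul_add]
    rw [k5, k4]
    have k6 : (1 - e) * ((2 : ℂ) • (1 : A) - (2 : ℂ) • (P + Q) + (P * Q + Q * P))
        = (2 : ℂ) • (1 : A) - (2 : ℂ) • (P + Q) + (P * Q + Q * P)
          - ((2 : ℂ) • e - (2 : ℂ) • (e * (P + Q)) + e * (P * Q + Q * P)) := by
      rw [sub_mul, one_mul, mul_add, mul_sub, mul_smul_comm, mul_smul_comm, mul_one]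
    have k7 : (1 - e) * (1 - P) = 1 - P - e + e * P := by noncomm_ring
    have k8 : (1 - e) * (1 - Q) = 1 - Q - e + e * Q := by noncomm_ring
    rw [k6, k7, k8, mul_add e P Q]
    module
  rw [key]
  have hr : ∀ (r : ℝ) (x : A), 0 ≤ r → 0 ≤ x → 0 ≤ r • x := fun r x hr hx => smul_nonneg hr hx
  apply add_nonneg
  · apply add_nonneg
    · exact add_nonneg (hr _ _ (by norm_num) pos1) (hr _ _ hε0.le pos2)
    · exact hr _ _ hε0.le pos3
  · exact add_nonneg (hr _ _ (by positivity) hE00) (hr _ _ (by positivity) hEm0)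

end

end Pool.Agent.H494R3.GT
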