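import Pool.Agent.H494R3.GT.NoSOS

set_option autoImplicit false
set_option linter.style.haveILetI false
set_option linter.unusedVariables false

namespace Pool.Agent.H494R3.GT

open scoped Pointwise

/-- partner index on the path -/
def nx (e m k : ℕ) : ℕ := if (k + e) % 2 = 0 then (if k < m then k + 1 else k) else k - 1

lemma nx_le {e m k : ℕ} (h : k ≤ m) : nx e m k ≤ m := by
  unfold nx
  split_ifs <;> omega

/-- Geometric data. -/
structure Geo (P : Type) where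
  bl : P → ℕ
  fin : ∀ m, {x | bl x = m}.Finite
  T : Set (Equiv.Perm P)
  one : 1 ∈ T
  inv : ∀ τ ∈ T, τ⁻¹ ∈ T
  blT : ∀ τ ∈ T, ∀ x, bl (τ x) = bl x
  yy : ℕ → ℕ → P
  bly : ∀ m k, bl (yy m k) = m
  sep : ∀ m, ∀ k ≤ m, ∀ k' ≤ m, ∀ τ ∈ T ^ (m + 2), τ (yy m k) = yy m k' → k = k'
  sg : ℕ → Equiv.Perm P
  sg_fix : ∀ e x, (∀ m, ∀ k ≤ m, x ≠ yy m k) → sg e x = x
  sg_val : ∀ e m k, k ≤ m → sg e (yy m k) = yy m (nx e m k)

namespace Geo

variable {P : Type} (g : Geo P)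

lemma pow_mono {r s : ℕ} (h : r ≤ s) : g.T ^ r ⊆ g.T ^ s := Set.pow_subset_pow_right g.one h

lemma pow_inv {r : ℕ} {τ : Equiv.Perm P} (h : τ ∈ g.T ^ r) : τ⁻¹ ∈ g.T ^ r := by
  have h1 : g.T⁻¹ = g.T := by
    ext σ
    rw [Set.mem_inv]
    exact ⟨fun h => by simpa using g.inv _ h, fun h => g.inv _ h⟩
  have h2 : (g.T ^ r)⁻¹ = g.T ^ r := by rw [← inv_pow, h1]
  rw [← h2]
  simpa using h

lemma pow_mul {r s : ℕ} {τ σ : Equiv.Perm P} (h : τ ∈ g.T ^ r) (h' : σ ∈ g.T ^ s) :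
    τ * σ ∈ g.T ^ (r + s) := by
  rw [pow_add]; exact Set.mul_mem_mul h h'

lemma pow_bl {r : ℕ} : ∀ {τ : Equiv.Perm P}, τ ∈ g.T ^ r → ∀ x, g.bl (τ x) = g.bl x := by
  induction r with
  | zero => intro τ h x; rw [pow_zero, Set.mem_one] at h; rw [h]; rfl
  | succ r ih =>
    intro τ h x
    rw [pow_succ, Set.mem_mul] at h
    obtain ⟨a, ha, b, hb, rfl⟩ := h
    rw [Equiv.Perm.mul_apply, ih ha, g.blT b hb]

/-- points within `r` of the path in block `m` -/
def Near (m r : ℕ) (x : P) : Prop := ∃ k ≤ m, ∃ τ ∈ g.T ^ r, τ (g.yy m k) = x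

variable {g}

lemma Near.mono {m r s : ℕ} {x : P} (h : g.Near m r x) (hrs : r ≤ s) : g.Near m s x := by
  obtain ⟨k, hk, τ, hτ, e⟩ := h
  exact ⟨k, hk, τ, g.pow_mono hrs hτ, e⟩

lemma Near.bl {m r : ℕ} {x : P} (h : g.Near m r x) : g.bl x = m := by
  obtain ⟨k, hk, τ, hτ, e⟩ := h
  rw [← e, g.pow_bl hτ, g.bly]

lemma Near.move {m r s : ℕ} {x : P} (h : g.Near m r x) {σ : Equiv.Perm P} (hσ : σ ∈ g.T ^ s) :
    g.Near m (s + r) (σ x) := by
  obtain ⟨k, hk, τ, hτ, e⟩ := h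
  exact ⟨k, hk, σ * τ, g.pow_mul hσ hτ, by rw [Equiv.Perm.mul_apply, e]⟩

lemma near_yy {m k : ℕ} (r : ℕ) (hk : k ≤ m) : g.Near m r (g.yy m k) :=
  ⟨k, hk, 1, g.pow_mono (Nat.zero_le r) (by rw [pow_zero]; exact Set.one_mem_one), rfl⟩

variable (g)

/-- the graph only has edges coming from `T` and from the paths -/
def Compat (Gr : SimpleGraph P) : Prop := ∀ x y, Gr.Adj x y →
  (∃ τ ∈ g.T, τ x = y) ∨ (∃ m k k', k ≤ m ∧ k' ≤ m ∧ x = g.yy m k ∧ y = g.yy m k')

variable {g}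

lemma walk_lemma {Gr : SimpleGraph P} (hG : g.Compat Gr) {z x : P} (p : Gr.Walk z x) :
    ∀ r, p.length ≤ r → (∃ τ ∈ g.T ^ r, τ z = x) ∨ ∃ m, g.Near m r z ∧ g.Near m r x := by
  induction p with
  | nil =>
    intro r _
    left
    exact ⟨1, g.pow_mono (Nat.zero_le r) (by rw [pow_zero]; exact Set.one_mem_one), rfl⟩
  | @cons z z' x h p ih =>
    intro r hr
    rw [SimpleGraph.Walk.length_cons] at hr
    obtain ⟨r', rfl⟩ : ∃ r', r = r' + 1 := ⟨r - 1, by omega⟩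
    rcases ih r' (by omega) with ⟨τ, hτ, e⟩ | ⟨m, h1, h2⟩
    · rcases hG z z' h with ⟨σ, hσ, e2⟩ | ⟨m, k, k', hk, hk', rfl, rfl⟩
      · left
        exact ⟨τ * σ, g.pow_mul hτ (by simpa using hσ), by rw [Equiv.Perm.mul_apply, e2, e]⟩
      · right
        refine ⟨m, near_yy _ hk, ?_⟩
        rw [← e]
        exact ((near_yy 0 hk').move hτ).mono (by omega)
    · rcases hG z z' h with ⟨σ, hσ, e2⟩ | ⟨m1, k, k', hk, hk', rfl, rfl⟩
      · right
        refine ⟨m, ?_, h2.mono (by omega)⟩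
        have h3 : z = σ⁻¹ z' := by rw [← e2]; simp
        rw [h3]
        have := h1.move (σ := σ⁻¹) (s := 1) (by simpa using g.inv σ hσ)
        exact this.mono (by omega)
      · right
        have : m = m1 := by rw [← h1.bl, g.bly]
        subst this
        exact ⟨m, near_yy _ hk, h2.mono (by omega)⟩

lemma edist_lemma {Gr : SimpleGraph P} (hG : g.Compat Gr) {z x : P} {R : ℕ}
    (h : Gr.edist x z < R) :
    (∃ τ ∈ g.T ^ R, τ z = x) ∨ ∃ m, g.Near m R z ∧ g.Near m R x := by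
  rw [SimpleGraph.edist_comm] at h
  obtain ⟨p, hp⟩ := SimpleGraph.exists_walk_of_edist_ne_top (h.trans_le le_top).ne
  refine walk_lemma hG p R ?_
  rw [← hp] at h
  exact le_of_lt (by exact_mod_cast h)

section main
variable (g) (m R : ℕ)

open scoped Classical in
/-- index of the closest path point -/
noncomputable def idx (x : P) : ℕ := if h : g.Near m (2 * R) x then h.choose else 0

variable {m R}

lemma near_unique (hm : 6 * R ≤ m + 2) {r s t : ℕ} (hr : r ≤ 2 * R) (hs : s ≤ 2 * R)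
    (ht : t ≤ 2 * R) {k k' : ℕ} (hk : k ≤ m) (hk' : k' ≤ m) {τ τ' σ : Equiv.Perm P}
    (h1 : τ ∈ g.T ^ r) (h2 : τ' ∈ g.T ^ s) (h3 : σ ∈ g.T ^ t)
    (h : σ (τ (g.yy m k)) = τ' (g.yy m k')) : k = k' := by
  apply g.sep m k hk k' hk' (τ'⁻¹ * (σ * τ))
  · exact g.pow_mono (by omega) (g.pow_mul (g.pow_inv h2) (g.pow_mul h3 h1))
  · rw [Equiv.Perm.mul_apply, Equiv.Perm.mul_apply, h]; simp

lemma idx_eq (hm : 6 * R ≤ m + 2) {r : ℕ} (hr : r ≤ 2 * R) {k : ℕ} (hk : k ≤ m)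
    {τ : Equiv.Perm P} (hτ : τ ∈ g.T ^ r) : g.idx m R (τ (g.yy m k)) = k := by
  have h : g.Near m (2 * R) (τ (g.yy m k)) := ⟨k, hk, τ, g.pow_mono hr hτ, rfl⟩
  rw [idx, dif_pos h]
  obtain ⟨hk', τ', hτ', e⟩ := h.choose_spec
  exact g.near_unique hm le_rfl hr (Nat.zero_le _) hk' hk hτ' hτ
    (show (1 : Equiv.Perm P) ∈ g.T ^ 0 by rw [pow_zero]; exact Set.one_mem_one) e

lemma idx_yy (hm : 6 * R ≤ m + 2) {k : ℕ} (hk : k ≤ m) : g.idx m R (g.yy m k) = k :=
  g.idx_eq hm (r := 0) (Nat.zero_le _) hk (τ := 1) (by rw [pow_zero]; exact Set.one_mem_one)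

variable (m R)

lemma near_fin : {x | g.Near m (2 * R) x}.Finite :=
  (g.fin m).subset fun x hx => Near.bl hx

noncomputable def u1 : L2 P := vec (g.near_fin m R).toFinset fun _ => 1
noncomputable def uK : L2 P := vec (g.near_fin m R).toFinset fun x => (g.idx m R x : ℂ)
noncomputable def uK2 : L2 P := vec (g.near_fin m R).toFinset fun x => (g.idx m R x : ℂ) ^ 2
noncomputable def onev : L2 P := vec (g.fin m).toFinset fun _ => 1

variable {m R}

lemma u1_near {x : P} (h : g.Near m (2 * R) x) : (g.u1 m R) x = 1 := by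
  rw [u1, vec_apply, if_pos (by simpa using h)]
lemma uK_near {x : P} (h : g.Near m (2 * R) x) : (g.uK m R) x = (g.idx m R x : ℂ) := by
  rw [uK, vec_apply, if_pos (by simpa using h)]
lemma uK2_near {x : P} (h : g.Near m (2 * R) x) : (g.uK2 m R) x = (g.idx m R x : ℂ) ^ 2 := by
  rw [uK2, vec_apply, if_pos (by simpa using h)]
lemma u1_far {x : P} (h : ¬ g.Near m (2 * R) x) : (g.u1 m R) x = 0 := by
  rw [u1, vec_apply, if_neg (by simpa using h)]
lemma uK_far {x : P} (h : ¬ g.Near m (2 * R) x) : (g.uK m R) x = 0 := by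
  rw [uK, vec_apply, if_neg (by simpa using h)]
lemma uK2_far {x : P} (h : ¬ g.Near m (2 * R) x) : (g.uK2 m R) x = 0 := by
  rw [uK2, vec_apply, if_neg (by simpa using h)]

lemma dich_near {Gr : SimpleGraph P} (hG : g.Compat Gr) {z : P} (hz : g.Near m R z) :
    ∀ x, Gr.edist x z < R → (g.u1 m R) x = (g.onev m) x := by
  intro x hx
  have hx2 : g.Near m (2 * R) x := by
    rcases edist_lemma hG hx with ⟨τ, hτ, e⟩ | ⟨m', h1, h2⟩
    · rw [← e]; exact (hz.move hτ).mono (by omega)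
    · have : m' = m := by rw [← h1.bl, hz.bl]
      subst this
      exact h2.mono (by omega)
  rw [g.u1_near hx2, onev, vec_apply, if_pos (by simpa using hx2.bl)]

lemma dich_far (hm : 6 * R ≤ m + 2) {Gr : SimpleGraph P} (hG : g.Compat Gr) {z : P}
    (hz : ¬ g.Near m R z) : ∃ κ : ℝ, ∀ x, Gr.edist x z < R →
      (g.uK m R) x = (κ : ℂ) * (g.u1 m R) x ∧ (g.uK2 m R) x = (κ : ℂ) ^ 2 * (g.u1 m R) x := by
  have hwalk : ∀ x, Gr.edist x z < R → g.Near m (2 * R) x → ∃ τ ∈ g.T ^ R, τ z = x := by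
    intro x hx hx2
    rcases edist_lemma hG hx with h | ⟨m', h1, h2⟩
    · exact h
    · have : m' = m := by rw [← h2.bl, hx2.bl]
      subst this
      exact absurd h1 hz
  by_cases hex : ∃ x0, Gr.edist x0 z < R ∧ g.Near m (2 * R) x0
  · obtain ⟨x0, hx0, hn0⟩ := hex
    refine ⟨(g.idx m R x0 : ℝ), ?_⟩
    intro x hx
    by_cases hn : g.Near m (2 * R) x
    · rw [g.u1_near hn, g.uK_near hn, g.uK2_near hn]
      obtain ⟨τ, hτ, e⟩ := hwalk x hx hn
      obtain ⟨τ0, hτ0, e0⟩ := hwalk x0 hx0 hn0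
      obtain ⟨k, hk, ρ, hρ, e3⟩ := hn
      obtain ⟨k0, hk0, ρ0, hρ0, e4⟩ := hn0
      have hkk : k0 = k := by
        apply g.near_unique hm (r := 2 * R) (s := 2 * R) (t := 2 * R) le_rfl le_rfl le_rfl
          hk0 hk hρ0 hρ
          (σ := τ * τ0⁻¹) (g.pow_mono (by omega) (g.pow_mul hτ (g.pow_inv hτ0)))
        rw [e4, e3, Equiv.Perm.mul_apply, ← e0]
        simp [e]
      have e5 : g.idx m R x = g.idx m R x0 := by
        rw [← e3, ← e4, g.idx_eq hm le_rfl hk hρ, g.idx_eq hm le_rfl hk0 hρ0, hkk]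
      rw [e5]
      constructor <;> simp
    · rw [g.u1_far hn, g.uK_far hn, g.uK2_far hn]
      simp
  · refine ⟨0, ?_⟩
    intro x hx
    have hn : ¬ g.Near m (2 * R) x := fun h => hex ⟨x, hx, h⟩
    rw [g.u1_far hn, g.uK_far hn, g.uK2_far hn]
    simp

/-- one term of the final sum -/
noncomputable def term (L : L2 P →L[ℂ] L2 P) (c : ℝ) (m R : ℕ) (z : P) : ℂ :=
  (starRingEnd ℂ ((L (g.uK m R)) z) * (L (g.uK m R)) z
    - starRingEnd ℂ ((L (g.u1 m R)) z) * (L (g.uK2 m R)) z)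
  - c * (starRingEnd ℂ ((L (g.uK m R)) z) * (g.uK m R) z
    - starRingEnd ℂ ((L (g.u1 m R)) z) * (g.uK2 m R) z)

lemma term_far (hm : 6 * R ≤ m + 2) (hR : 2 ≤ R) {Gr : SimpleGraph P} (hG : g.Compat Gr)
    {L : L2 P →L[ℂ] L2 P} (hL : PropLE Gr L 2) (c : ℝ) {z : P} (hz : ¬ g.Near m R z) :
    g.term L c m R z = 0 := by
  obtain ⟨κ, h⟩ := g.dich_far hm hG hz
  have hL' : PropLE Gr L R := fun x y hxy => hL x y (le_trans (by exact_mod_cast hR) hxy)
  have e1 : (L (g.uK m R)) z = κ * (L (g.u1 m R)) z := by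
    have : (L (g.uK m R)) z = (L ((κ : ℂ) • (g.u1 m R))) z := local_eq hL' fun x hx => by
      rw [(h x hx).1]; rfl
    rw [this, map_smul]; rfl
  have e2 : (L (g.uK2 m R)) z = κ ^ 2 * (L (g.u1 m R)) z := by
    have : (L (g.uK2 m R)) z = (L (((κ : ℂ) ^ 2) • (g.u1 m R))) z := local_eq hL' fun x hx => by
      rw [(h x hx).2]; rfl
    rw [this, map_smul]; rfl
  have h0 : Gr.edist z z < R := by
    rw [SimpleGraph.edist_self]
    exact_mod_cast (by omega : 0 < R)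
  obtain ⟨e3, e4⟩ := h z h0
  rw [term, e1, e2, e3, e4, map_mul, Complex.conj_ofReal]
  ring

lemma yy_inj (hm : 6 * R ≤ m + 2) {k k' : ℕ} (hk : k ≤ m) (hk' : k' ≤ m)
    (h : g.yy m k = g.yy m k') : k = k' := by
  have h1 := g.idx_yy hm hk
  rw [h, g.idx_yy hm hk'] at h1
  exact h1.symm

/-- The Laplacian formula. -/
def IsLap {J : Type} [Fintype J] (g : Geo P) (L : L2 P →L[ℂ] L2 P) (t : J → Equiv.Perm P) : Prop :=
  (∀ j, t j ∈ g.T) ∧ ∀ v z, (L v) z = (∑ j, (v z - v (t j z))) + (v z - v (g.sg 0 z))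
    + (v z - v (g.sg 1 z))

lemma term_near (hm : 6 * R ≤ m + 2) (hR : 2 ≤ R) {J : Type} [Fintype J]
    {L : L2 P →L[ℂ] L2 P} {t : J → Equiv.Perm P} (hL : IsLap g L t) (c : ℝ) {z : P}
    (hz : g.Near m R z) :
    (z = g.yy m 0 → g.term L c m R z = 1) ∧ (z = g.yy m m → g.term L c m R z = 1 - c * m) ∧
    (z ≠ g.yy m 0 → z ≠ g.yy m m → g.term L c m R z = 0) := by
  have hz2 : g.Near m (2 * R) z := hz.mono (by omega)
  have hT : ∀ j, g.Near m (2 * R) (t j z) ∧ g.idx m R (t j z) = g.idx m R z := by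
    intro j
    have h1 : t j ∈ g.T ^ 1 := by simpa using hL.1 j
    refine ⟨(hz.move h1).mono (by omega), ?_⟩
    obtain ⟨k, hk, τ, hτ, e⟩ := hz
    have e1 : t j z = (t j * τ) (g.yy m k) := by rw [Equiv.Perm.mul_apply, e]
    rw [e1, g.idx_eq hm (r := 1 + R) (by omega) hk (g.pow_mul h1 hτ), ← e,
      g.idx_eq hm (by omega) hk hτ]
  have hsg : ∀ e, g.Near m (2 * R) (g.sg e z) := by
    intro e
    by_cases hy : ∀ m', ∀ k ≤ m', z ≠ g.yy m' k
    · rw [g.sg_fix e z hy]; exact hz2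
    · push Not at hy
      obtain ⟨m', k, hk, rfl⟩ := hy
      have : m' = m := by rw [← hz.bl, g.bly]
      subst this
      rw [g.sg_val e _ _ hk]
      exact near_yy _ (nx_le hk)
  have hL1 : (L (g.u1 m R)) z = 0 := by
    rw [hL.2, g.u1_near hz2, g.u1_near (hsg 0), g.u1_near (hsg 1)]
    have : ∀ j, (1 : ℂ) - (g.u1 m R) (t j z) = 0 := by
      intro j; rw [g.u1_near (hT j).1, sub_self]
    simp only [this, sub_self, Finset.sum_const_zero, add_zero]
  have hLK : (L (g.uK m R)) z = ((g.idx m R z : ℂ) - g.idx m R (g.sg 0 z))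
      + ((g.idx m R z : ℂ) - g.idx m R (g.sg 1 z)) := by
    rw [hL.2, g.uK_near hz2, g.uK_near (hsg 0), g.uK_near (hsg 1)]
    have : ∀ j, (g.idx m R z : ℂ) - (g.uK m R) (t j z) = 0 := by
      intro j; rw [g.uK_near (hT j).1, (hT j).2, sub_self]
    simp only [this, Finset.sum_const_zero, zero_add]
  have hLK0 : (∀ k ≤ m, z ≠ g.yy m k) → (L (g.uK m R)) z = 0 := by
    intro h
    have hy : ∀ m', ∀ k ≤ m', z ≠ g.yy m' k := by
      intro m' k hk e
      have : m' = m := by rw [← hz.bl, e, g.bly]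
      subst this
      exact h k hk e
    rw [hLK, g.sg_fix 0 z hy, g.sg_fix 1 z hy]; simp
  have hLKk : ∀ k ≤ m, z = g.yy m k → (L (g.uK m R)) z
      = ((k : ℂ) - nx 0 m k) + ((k : ℂ) - nx 1 m k) := by
    intro k hk e
    rw [hLK, e, g.sg_val 0 m k hk, g.sg_val 1 m k hk, g.idx_yy hm hk, g.idx_yy hm (nx_le hk),
      g.idx_yy hm (nx_le hk)]
  have hm0 : 0 < m := by omega
  have hterm : g.term L c m R z = starRingEnd ℂ ((L (g.uK m R)) z) * (L (g.uK m R)) z
      - c * (starRingEnd ℂ ((L (g.uK m R)) z) * (g.idx m R z : ℂ)) := by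
    rw [term, hL1, g.uK_near hz2]; simp
  refine ⟨?_, ?_, ?_⟩
  · intro e
    have h1 := hLKk 0 (Nat.zero_le _) e
    have h2 : nx 0 m 0 = 1 := by simp [nx, hm0]
    have h3 : nx 1 m 0 = 0 := by simp [nx]
    rw [h2, h3] at h1
    rw [hterm, h1]
    have h4 : g.idx m R z = 0 := by rw [e, g.idx_yy hm (Nat.zero_le _)]
    rw [h4]
    simp
  · intro e
    have h1 := hLKk m le_rfl e
    have h2 : ((m : ℂ) - nx 0 m m) + ((m : ℂ) - nx 1 m m) = 1 := by
      obtain ⟨m', rfl⟩ : ∃ m', m = m' + 1 := ⟨m - 1, by omega⟩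
      unfold nx
      rcases Nat.even_or_odd' m' with ⟨a, rfl | rfl⟩
      · have a1 : (2 * a + 1 + 0) % 2 ≠ 0 := by omega
        have a2 : (2 * a + 1 + 1) % 2 = 0 := by omega
        rw [if_neg a1, if_pos a2, if_neg (lt_irrefl _)]
        simp
      · have a1 : (2 * a + 1 + 1 + 0) % 2 = 0 := by omega
        have a2 : (2 * a + 1 + 1 + 1) % 2 ≠ 0 := by omega
        rw [if_neg a2, if_pos a1, if_neg (lt_irrefl _)]
        simp
    rw [h2] at h1
    rw [hterm, h1]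
    have h4 : g.idx m R z = m := by rw [e, g.idx_yy hm le_rfl]
    rw [h4]
    simp
  · intro h0 hmm
    have h1 : (L (g.uK m R)) z = 0 := by
      by_cases hy : ∀ k ≤ m, z ≠ g.yy m k
      · exact hLK0 hy
      · push Not at hy
        obtain ⟨k, hk, e⟩ := hy
        rw [hLKk k hk e]
        have k0 : k ≠ 0 := by rintro rfl; exact h0 e
        have km : k ≠ m := by rintro rfl; exact hmm e
        obtain ⟨k', rfl⟩ : ∃ k', k = k' + 1 := ⟨k - 1, by omega⟩
        unfold nx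
        have hlt : k' + 1 < m := by omega
        rcases Nat.even_or_odd' k' with ⟨a, rfl | rfl⟩
        · have a1 : (2 * a + 1 + 0) % 2 ≠ 0 := by omega
          have a2 : (2 * a + 1 + 1) % 2 = 0 := by omega
          rw [if_neg a1, if_pos a2, if_pos hlt]
          push_cast
          simp
        · have a1 : (2 * a + 1 + 1 + 0) % 2 = 0 := by omega
          have a2 : (2 * a + 1 + 1 + 1) % 2 ≠ 0 := by omega
          rw [if_neg a2, if_pos a1, if_pos hlt]
          push_cast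
          simp
    rw [hterm, h1]
    simp

/-- Final contradiction for the sum of squares. -/
theorem no_sos (hm : 6 * R ≤ m + 2) (hR : 2 ≤ R) {Gr : SimpleGraph P} (hG : g.Compat Gr)
    {J : Type} [Fintype J] {L : L2 P →L[ℂ] L2 P} {t : J → Equiv.Perm P} (hL : IsLap g L t)
    (hLp : PropLE Gr L 2) (hLs : star L = L) (hLone : L (g.onev m) = 0)
    {c : ℝ} {n : ℕ} {ξ : Fin n → (L2 P →L[ℂ] L2 P)}
    (hξ : ∀ k, PropLE Gr (ξ k) R)
    (hsos : L * L - (c : ℂ) • L = ∑ k, star (ξ k) * ξ k) : c * m ≤ 2 := by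
  classical
  have h := no_sos_core hLs hξ hsos (u1 := g.u1 m R) (uK := g.uK m R) (uK2 := g.uK2 m R) hLone
    (by
      intro z
      by_cases hz : g.Near m R z
      · left; exact g.dich_near hG hz
      · right; exact g.dich_far hm hG hz)
  have hm0 : 0 < m := by omega
  have hne : g.yy m 0 ≠ g.yy m m := fun e =>
    hm0.ne (g.yy_inj hm (Nat.zero_le _) le_rfl e)
  have e : (inner ℂ (L (g.uK m R)) (L (g.uK m R)) - inner ℂ (L (g.u1 m R)) (L (g.uK2 m R)))
      - (c : ℂ) * (inner ℂ (L (g.uK m R)) (g.uK m R) - inner ℂ (L (g.u1 m R)) (g.uK2 m R))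
      = ∑' z, g.term L c m R z := by
    rw [inner_re_eq, inner_re_eq, inner_re_eq, inner_re_eq,
      ← (inner_summable _ _).tsum_sub (inner_summable _ _),
      ← (inner_summable _ _).tsum_sub (inner_summable _ _), ← tsum_mul_left,
      ← ((inner_summable _ _).sub (inner_summable _ _)).tsum_sub
        (((inner_summable _ _).sub (inner_summable _ _)).mul_left _)]
    rfl
  have e2 : ∑' z, g.term L c m R z = 2 - c * m := by
    rw [tsum_eq_sum (s := {g.yy m 0, g.yy m m}), Finset.sum_pair hne]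
    · rw [(g.term_near hm hR hL c (near_yy R (Nat.zero_le m))).1 rfl,
        (g.term_near hm hR hL c (near_yy R le_rfl)).2.1 rfl]
      ring
    · intro z hz
      rw [Finset.mem_insert, Finset.mem_singleton, not_or] at hz
      by_cases hzn : g.Near m R z
      · exact (g.term_near hm hR hL c hzn).2.2 hz.1 hz.2
      · exact g.term_far hm hR hG hLp c hzn
  rw [e, e2] at h
  have h2 : (2 - (c : ℂ) * m).re = 2 - c * m := by
    simp
  rw [h2] at h
  linarith

end main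

end Geo

end Pool.Agent.H494R3.GT
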