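import Mathlib

set_option autoImplicit false
set_option linter.style.haveILetI false
set_option linter.unusedVariables false
set_option linter.unusedSimpArgs false

namespace Pool.Agent.H494R3.GT

/-- coefficient vectors -/
abbrev Av (n : ℕ) : Type := Fin n → ZMod 5

/-- the space acted upon -/
abbrev V3 (n : ℕ) : Type := Av n × Av n × Av n

/-- nilpotent shift -/
def tt {n : ℕ} (x : Av n) : Av n := fun i => if h : i.val = 0 then 0 else x ⟨i.val - 1, by omega⟩

lemma tt_add {n : ℕ} (x y : Av n) : tt (x + y) = tt x + tt y := by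
  funext i
  simp only [tt, Pi.add_apply]
  split_ifs <;> simp

lemma tt_smul {n : ℕ} (c : ZMod 5) (x : Av n) : tt (c • x) = c • tt x := by
  funext i
  simp only [tt, Pi.smul_apply]
  split_ifs <;> simp

def sh0 (n : ℕ) (a : ZMod 5) : Equiv.Perm (V3 n) where
  toFun v := (v.1 + a • v.2.1, v.2.1, v.2.2)
  invFun v := (v.1 - a • v.2.1, v.2.1, v.2.2)
  left_inv v := by simp
  right_inv v := by simp

def sh1 (n : ℕ) (a : ZMod 5) : Equiv.Perm (V3 n) where
  toFun v := (v.1, v.2.1 + a • v.2.2, v.2.2)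
  invFun v := (v.1, v.2.1 - a • v.2.2, v.2.2)
  left_inv v := by simp
  right_inv v := by simp

def sh2 (n : ℕ) (a : ZMod 5) : Equiv.Perm (V3 n) where
  toFun v := (v.1, v.2.1, v.2.2 + a • tt v.1)
  invFun v := (v.1, v.2.1, v.2.2 - a • tt v.1)
  left_inv v := by simp
  right_inv v := by simp

def zh0 (n : ℕ) (a : ZMod 5) : Equiv.Perm (V3 n) where
  toFun v := (v.1 + a • v.2.2, v.2.1, v.2.2)
  invFun v := (v.1 - a • v.2.2, v.2.1, v.2.2)
  left_inv v := by simp
  right_inv v := by simp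

def zh1 (n : ℕ) (a : ZMod 5) : Equiv.Perm (V3 n) where
  toFun v := (v.1, v.2.1 + a • tt v.1, v.2.2)
  invFun v := (v.1, v.2.1 - a • tt v.1, v.2.2)
  left_inv v := by simp
  right_inv v := by simp

def zh2 (n : ℕ) (a : ZMod 5) : Equiv.Perm (V3 n) where
  toFun v := (v.1, v.2.1, v.2.2 + a • tt v.2.1)
  invFun v := (v.1, v.2.1, v.2.2 - a • tt v.2.1)
  left_inv v := by simp
  right_inv v := by simp

/-- generators -/
def sh (n : ℕ) : Fin 3 → ZMod 5 → Equiv.Perm (V3 n) := ![sh0 n, sh1 n, sh2 n]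
/-- commutators -/
def zh (n : ℕ) : Fin 3 → ZMod 5 → Equiv.Perm (V3 n) := ![zh0 n, zh1 n, zh2 n]

lemma sh_zero (n : ℕ) (i : Fin 3) : sh n i 0 = 1 := by
  fin_cases i <;> ext v <;> simp [sh, sh0, sh1, sh2]

lemma zh_zero (n : ℕ) (i : Fin 3) : zh n i 0 = 1 := by
  fin_cases i <;> ext v <;> simp [zh, zh0, zh1, zh2]

lemma perm_ext {n : ℕ} {f g : Equiv.Perm (V3 n)}
    (h : ∀ x y z, f (x, y, z) = g (x, y, z)) : f = g := Equiv.ext fun ⟨x, y, z⟩ => h x y z

lemma sh_add (n : ℕ) (i : Fin 3) (a b : ZMod 5) : sh n i (a + b) = sh n i a * sh n i b := by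
  fin_cases i <;> apply perm_ext <;> intro x y z <;>
  · simp [sh, sh0, sh1, sh2, Equiv.Perm.mul_apply, add_smul]
    try abel

lemma zh_add (n : ℕ) (i : Fin 3) (a b : ZMod 5) : zh n i (a + b) = zh n i a * zh n i b := by
  fin_cases i <;> apply perm_ext <;> intro x y z <;>
  · simp [zh, zh0, zh1, zh2, Equiv.Perm.mul_apply, add_smul]
    try abel

lemma rel0 (n : ℕ) (a b : ZMod 5) :
    sh n 0 a * sh n 1 b = zh n 0 (a * b) * (sh n 1 b * sh n 0 a) := by
  apply perm_ext; intro x y z
  simp [sh, zh, sh0, sh1, zh0, Equiv.Perm.mul_apply, mul_smul, smul_add]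
  try abel

lemma rel1 (n : ℕ) (a b : ZMod 5) :
    sh n 1 a * sh n 2 b = zh n 1 (a * b) * (sh n 2 b * sh n 1 a) := by
  apply perm_ext; intro x y z
  simp [sh, zh, sh2, sh1, zh1, Equiv.Perm.mul_apply, mul_smul, smul_add]
  try abel

lemma rel2 (n : ℕ) (a b : ZMod 5) :
    sh n 2 a * sh n 0 b = zh n 2 (a * b) * (sh n 0 b * sh n 2 a) := by
  apply perm_ext; intro x y z
  simp [sh, zh, sh0, sh2, zh2, Equiv.Perm.mul_apply, mul_smul, smul_add, tt_add, tt_smul]
  try abel

lemma zrel (n : ℕ) (i : Fin 3) (a b : ZMod 5) :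
    zh n i a * sh n i b = sh n i b * zh n i a := by
  fin_cases i <;> apply perm_ext <;> intro x y z <;>
  · simp [sh, zh, sh0, sh1, sh2, zh0, zh1, zh2, Equiv.Perm.mul_apply, mul_smul, smul_add, tt_add,
      tt_smul]
    try abel

lemma zrel' (n : ℕ) (i : Fin 3) (a b : ZMod 5) :
    zh n i a * sh n (i + 1) b = sh n (i + 1) b * zh n i a := by
  fin_cases i <;> apply perm_ext <;> intro x y z <;>
  · simp [sh, zh, sh0, sh1, sh2, zh0, zh1, zh2, Equiv.Perm.mul_apply, mul_smul, smul_add, tt_add,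
      tt_smul]
    try abel

/-- the group -/
def Gn (n : ℕ) : Subgroup (Equiv.Perm (V3 n)) :=
  Subgroup.closure (Set.range fun p : Fin 3 × ZMod 5 => sh n p.1 p.2)

lemma sh_mem (n : ℕ) (i : Fin 3) (a : ZMod 5) : sh n i a ∈ Gn n :=
  Subgroup.subset_closure ⟨(i, a), rfl⟩

lemma zh_mem (n : ℕ) (i : Fin 3) (a : ZMod 5) : zh n i a ∈ Gn n := by
  have h : ∀ (x y z : Equiv.Perm (V3 n)), x ∈ Gn n → y ∈ Gn n → x * y = z * (y * x) → z ∈ Gn n := by
    intro x y z hx hy h
    have : z = x * y * (y * x)⁻¹ := by rw [h]; group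
    rw [this]
    exact mul_mem (mul_mem hx hy) (inv_mem (mul_mem hy hx))
  fin_cases i
  · have := rel0 n a 1
    rw [mul_one] at this
    exact h _ _ _ (sh_mem n 0 a) (sh_mem n 1 1) this
  · have := rel1 n a 1
    rw [mul_one] at this
    exact h _ _ _ (sh_mem n 1 a) (sh_mem n 2 1) this
  · have := rel2 n a 1
    rw [mul_one] at this
    exact h _ _ _ (sh_mem n 2 a) (sh_mem n 0 1) this

def hh (n : ℕ) : Equiv.Perm (V3 n) := sh n 0 1 * sh n 1 1 * sh n 2 1

lemma hh_apply (n : ℕ) (x y z : Av n) :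
    hh n (x, y, z) = (x + (y + (z + tt x)), y + (z + tt x), z + tt x) := by
  simp [hh, sh, sh0, sh1, sh2, Equiv.Perm.mul_apply]

def e0v (n : ℕ) : Av n := fun i => if i.val = 0 then 1 else 0

lemma hh_pow (n : ℕ) : ∀ k (hk : k < n), ∃ x y z : Av n, ((hh n) ^ k) (e0v n, 0, 0) = (x, y, z) ∧
    (∀ i : Fin n, k < i.val → x i = 0 ∧ y i = 0 ∧ z i = 0) ∧ x ⟨k, hk⟩ = 1 := by
  intro k
  induction k with
  | zero =>
    intro hk
    refine ⟨e0v n, 0, 0, rfl, ?_, ?_⟩
    · intro i hi
      refine ⟨?_, rfl, rfl⟩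
      simp only [e0v]
      rw [if_neg (by omega)]
    · simp [e0v]
  | succ k ih =>
    intro hk
    obtain ⟨x, y, z, h1, h2, h3⟩ := ih (by omega)
    refine ⟨x + (y + (z + tt x)), y + (z + tt x), z + tt x, ?_, ?_, ?_⟩
    · rw [pow_succ', Equiv.Perm.mul_apply, h1, hh_apply]
    · intro i hi
      obtain ⟨a1, a2, a3⟩ := h2 i (by omega)
      have a4 : tt x i = 0 := by
        simp only [tt]
        rw [dif_neg (by omega)]
        exact (h2 ⟨i.val - 1, by omega⟩ (by simp only; omega)).1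
      simp only [Pi.add_apply, a1, a2, a3, a4, add_zero]
      exact ⟨trivial, trivial, trivial⟩
    · obtain ⟨a1, a2, a3⟩ := h2 ⟨k + 1, hk⟩ (by simp)
      have a4 : tt x ⟨k + 1, hk⟩ = 1 := by
        simp only [tt]
        rw [dif_neg (by omega)]
        exact h3
      simp only [Pi.add_apply, a1, a2, a3, a4, zero_add]

lemma hh_pow_ne (n k : ℕ) (h0 : 0 < k) (hk : k < n) : (hh n) ^ k ≠ 1 := by
  intro h
  obtain ⟨x, y, z, h1, h2, h3⟩ := hh_pow n k hk
  rw [h] at h1
  have h4 : e0v n = x := by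
    have := congrArg Prod.fst h1
    exact this
  rw [← h4] at h3
  simp only [e0v] at h3
  rw [if_neg (by omega)] at h3
  exact absurd h3 (by decide)

lemma hh_mem (n : ℕ) : hh n ∈ Gn n := mul_mem (mul_mem (sh_mem n 0 1) (sh_mem n 1 1)) (sh_mem n 2 1)

instance (n : ℕ) : Finite (Gn n) := inferInstance

lemma card_Gn (n : ℕ) : n ≤ Nat.card (Gn n) := by
  have h1 : orderOf (⟨hh n, hh_mem n⟩ : Gn n) ≤ Nat.card (Gn n) := orderOf_le_card
  refine le_trans ?_ h1
  by_contra hlt
  push Not at hlt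
  have h2 := pow_orderOf_eq_one (⟨hh n, hh_mem n⟩ : Gn n)
  have h3 : (hh n) ^ (orderOf (⟨hh n, hh_mem n⟩ : Gn n)) = 1 := by
    have := congrArg Subtype.val h2
    simpa using this
  exact hh_pow_ne n _ (orderOf_pos _) hlt h3

lemma sh_inj (n : ℕ) (hn : 2 ≤ n) (i j : Fin 3) (a b : ZMod 5) (h : sh n i a = sh n j b)
    (ha : a ≠ 0) : i = j ∧ a = b := by
  have t0 : ∀ (c : ZMod 5), (c • e0v n : Av n) ⟨0, by omega⟩ = c := by
    intro c; simp [e0v]
  have t1 : ∀ (c : ZMod 5), (c • tt (e0v n) : Av n) ⟨1, by omega⟩ = c := by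
    intro c; simp [e0v, tt]
  have A0 := congrArg (fun f : Equiv.Perm (V3 n) => (f (0, e0v n, 0)).1 ⟨0, by omega⟩) h
  have A1 := congrArg (fun f : Equiv.Perm (V3 n) => (f (0, 0, e0v n)).2.1 ⟨0, by omega⟩) h
  have A2 := congrArg (fun f : Equiv.Perm (V3 n) => (f (e0v n, 0, 0)).2.2 ⟨1, by omega⟩) h
  fin_cases i <;> fin_cases j <;>
    simp only [sh, sh0, sh1, sh2, Matrix.cons_val_zero, Matrix.cons_val_one, Matrix.cons_val,
      Fin.zero_eta, Fin.mk_one, Fin.reduceFinMk, Equiv.coe_fn_mk, zero_add, t0, t1, smul_zero,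
      add_zero, Pi.zero_apply] at A0 A1 A2 ⊢ <;>
    first
      | exact ⟨trivial, A0⟩
      | exact ⟨trivial, A1⟩
      | exact ⟨trivial, A2⟩
      | exact absurd A0 ha
      | exact absurd A1 ha
      | exact absurd A2 ha

/-- greedy separated sequences -/
lemma greedy {G : Type} [Group G] [Finite G] [DecidableEq G] (S : Finset G) (m : ℕ)
    (h : (m + 1) * S.card < Nat.card G) :
    ∃ y : ℕ → G, ∀ k ≤ m, ∀ j < k, y k * (y j)⁻¹ ∉ S := by
  classical
  have : ∀ m', m' ≤ m → ∃ y : ℕ → G, ∀ k ≤ m', ∀ j < k, y k * (y j)⁻¹ ∉ S := by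
    intro m'
    induction m' with
    | zero => intro _; exact ⟨fun _ => 1, fun k hk j hj => by omega⟩
    | succ m' ih =>
      intro hm'
      obtain ⟨y, hy⟩ := ih (by omega)
      haveI := Fintype.ofFinite G
      have hcard : ((Finset.range (m' + 1)).biUnion fun j => S.image fun s => s * y j).card
          < Fintype.card G := by
        calc _ ≤ ∑ j ∈ Finset.range (m' + 1), (S.image fun s => s * y j).card :=
              Finset.card_biUnion_le
          _ ≤ ∑ j ∈ Finset.range (m' + 1), S.card :=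
              Finset.sum_le_sum fun j _ => Finset.card_image_le
          _ = (m' + 1) * S.card := by rw [Finset.sum_const, Finset.card_range, smul_eq_mul]
          _ ≤ (m + 1) * S.card := by gcongr; omega
          _ < _ := by rwa [← Nat.card_eq_fintype_card]
      obtain ⟨g, hg⟩ : ∃ g : G, g ∉ (Finset.range (m' + 1)).biUnion
          fun j => S.image fun s => s * y j := by
        by_contra hcon
        push Not at hcon
        have : (Finset.univ : Finset G) ⊆ (Finset.range (m' + 1)).biUnion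
            fun j => S.image fun s => s * y j := fun g _ => hcon g
        have := Finset.card_le_card this
        rw [Finset.card_univ] at this
        omega
      refine ⟨Function.update y (m' + 1) g, ?_⟩
      intro k hk j hj
      rcases Nat.lt_or_ge k (m' + 1) with hk1 | hk1
      · rw [Function.update_of_ne (by omega), Function.update_of_ne (by omega)]
        exact hy k (by omega) j hj
      · have : k = m' + 1 := by omega
        subst this
        rw [Function.update_self, Function.update_of_ne (by omega)]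
        intro hmem
        apply hg
        rw [Finset.mem_biUnion]
        refine ⟨j, Finset.mem_range.mpr hj, ?_⟩
        rw [Finset.mem_image]
        exact ⟨_, hmem, by simp⟩
  exact this m le_rfl

end Pool.Agent.H494R3.GT
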