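import Pool.Agent.H494R3.GT.Gap

set_option autoImplicit false
set_option linter.style.haveILetI false
set_option linter.unusedVariables false

namespace Pool.Agent.H494R3.GT

open scoped CStarAlgebra ComplexOrder

instance fact5 : Fact (Nat.Prime 5) := ⟨by norm_num⟩

section Ring
variable {A : Type*} [CStarAlgebra A]

/-- A unitary representation of `ZMod 5`. -/
structure IsRep (u : ZMod 5 → A) : Prop where
  zero : u 0 = 1
  add : ∀ i j, u (i + j) = u i * u j
  st : ∀ i, star (u i) = u (-i)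

noncomputable def avg (u : ZMod 5 → A) : A := ((1 / 5 : ℝ) : ℂ) • ∑ i, u i

variable {u v z : ZMod 5 → A}

lemma IsRep.mul_avg (hu : IsRep u) (i : ZMod 5) : u i * avg u = avg u := by
  unfold avg
  rw [mul_smul_comm, Finset.mul_sum]
  congr 1
  rw [← Equiv.sum_comp (Equiv.addLeft i) u]
  apply Finset.sum_congr rfl
  intro j _
  rw [Equiv.coe_addLeft, hu.add]

lemma IsRep.star_avg (hu : IsRep u) : star (avg u) = avg u := by
  unfold avg
  rw [star_smul, star_sum, ← Equiv.sum_comp (Equiv.neg (ZMod 5)) u]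
  congr 1
  · simp
  · apply Finset.sum_congr rfl
    intro j _
    rw [hu.st]; rfl

lemma IsRep.avg_mul (hu : IsRep u) (i : ZMod 5) : avg u * u i = avg u := by
  have h := congrArg star (hu.mul_avg (-i))
  rwa [star_mul, hu.star_avg, hu.st, neg_neg] at h

lemma IsRep.avg_avg (hu : IsRep u) : avg u * avg u = avg u := by
  have : avg u * avg u = ((1 / 5 : ℝ) : ℂ) • ∑ i, u i * avg u := by
    conv_lhs => rw [show avg u * avg u = (((1 / 5 : ℝ) : ℂ) • ∑ i, u i) * avg u from rfl]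
    rw [smul_mul_assoc, Finset.sum_mul]
  rw [this]
  simp only [hu.mul_avg]
  rw [Finset.sum_const, Finset.card_univ, ZMod.card, ← Nat.cast_smul_eq_nsmul ℂ, smul_smul]
  norm_num

/-- Heisenberg type relation. -/
structure IsHeis (u v z : ZMod 5 → A) : Prop where
  hu : IsRep u
  hv : IsRep v
  hz : IsRep z
  rel : ∀ i j, u i * v j = z (i * j) * (v j * u i)
  zu : ∀ i j, z i * u j = u j * z i
  zv : ∀ i j, z i * v j = v j * z i

lemma IsHeis.symm (h : IsHeis u v z) : IsHeis v u (fun k => z (-k)) where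
  hu := h.hv
  hv := h.hu
  hz := ⟨by simp [h.hz.zero], fun i j => by rw [neg_add, h.hz.add], fun i => by rw [h.hz.st]⟩
  rel i j := by
    rw [h.rel j i, ← mul_assoc, ← h.hz.add, mul_comm i j]
    simp [h.hz.zero]
  zu i j := h.zv _ _
  zv i j := h.zu _ _

lemma avg_neg (z : ZMod 5 → A) : avg (fun k => z (-k)) = avg z := by
  unfold avg
  congr 1
  exact Equiv.sum_comp (Equiv.neg (ZMod 5)) z

lemma IsHeis.zP (h : IsHeis u v z) (i : ZMod 5) : z i * avg u = avg u * z i := by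
  unfold avg
  rw [mul_smul_comm, smul_mul_assoc, Finset.mul_sum, Finset.sum_mul]
  congr 1
  exact Finset.sum_congr rfl fun j _ => h.zu _ _

lemma IsHeis.ZP (h : IsHeis u v z) : avg z * avg u = avg u * avg z := by
  conv_lhs => rw [show avg z = (((1 / 5 : ℝ) : ℂ) • ∑ i, z i) from rfl]
  conv_rhs => rw [show avg z = (((1 / 5 : ℝ) : ℂ) • ∑ i, z i) from rfl]
  rw [mul_smul_comm, smul_mul_assoc, Finset.mul_sum, Finset.sum_mul]
  congr 1
  exact Finset.sum_congr rfl fun j _ => h.zP _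

lemma IsHeis.ePvP (h : IsHeis u v z) (k : ZMod 5) :
    (1 - avg z) * (avg u * v k * avg u) = if k = 0 then (1 - avg z) * avg u else 0 := by
  have h1 : avg u * v k * avg u
      = (((1 / 5 : ℝ) : ℂ) • ∑ i, z (i * k)) * (v k * avg u) := by
    conv_lhs => rw [show avg u * v k * avg u
      = (((1 / 5 : ℝ) : ℂ) • ∑ i, u i) * v k * avg u from rfl]
    rw [smul_mul_assoc, smul_mul_assoc, smul_mul_assoc, Finset.sum_mul, Finset.sum_mul,
      Finset.sum_mul]
    congr 1
    apply Finset.sum_congr rfl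
    intro i _
    rw [h.rel, mul_assoc, mul_assoc (v k), h.hu.mul_avg]
  have hez : (1 - avg z) * avg z = 0 := by rw [sub_mul, one_mul, h.hz.avg_avg, sub_self]
  rw [h1]
  split_ifs with hk
  · subst hk
    simp only [mul_zero, h.hz.zero, h.hv.zero, one_mul]
    rw [Finset.sum_const, Finset.card_univ, ZMod.card, ← Nat.cast_smul_eq_nsmul ℂ, smul_smul]
    norm_num
  · have h2 : (((1 / 5 : ℝ) : ℂ) • ∑ i, z (i * k)) = avg z := by
      unfold avg
      congr 1
      exact Equiv.sum_comp (Equiv.mulRight₀ k hk) z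
    rw [h2, ← mul_assoc, hez, zero_mul]

lemma IsHeis.ePQP (h : IsHeis u v z) :
    (1 - avg z) * (avg u * avg v * avg u) = ((1 / 5 : ℝ) : ℂ) • ((1 - avg z) * avg u) := by
  have h1 : (1 - avg z) * (avg u * avg v * avg u)
      = ((1 / 5 : ℝ) : ℂ) • ∑ k, (1 - avg z) * (avg u * v k * avg u) := by
    conv_lhs => rw [show avg u * avg v * avg u
      = avg u * (((1 / 5 : ℝ) : ℂ) • ∑ i, v i) * avg u from rfl]
    rw [mul_smul_comm, smul_mul_assoc, mul_smul_comm, Finset.mul_sum, Finset.sum_mul,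
      Finset.mul_sum]
  rw [h1]
  congr 1
  simp only [h.ePvP]
  simp

lemma IsHeis.comm1 (h : IsHeis u v z) : avg z * (avg u * avg v) = avg z * (avg v * avg u) := by
  have h1 : ∀ i j, avg z * (u i * v j) = avg z * (v j * u i) := by
    intro i j
    rw [h.rel, ← mul_assoc, h.hz.avg_mul]
  have e1 : avg u * avg v = (((1 / 5 : ℝ) : ℂ) * ((1 / 5 : ℝ) : ℂ)) • ∑ i, ∑ j, u i * v j := by
    unfold avg
    rw [smul_mul_smul_comm, Finset.sum_mul_sum]
  have e2 : avg v * avg u = (((1 / 5 : ℝ) : ℂ) * ((1 / 5 : ℝ) : ℂ)) • ∑ i, ∑ j, v j * u i := by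
    unfold avg
    rw [smul_mul_smul_comm, Finset.sum_mul_sum, Finset.sum_comm]
  rw [e1, e2, mul_smul_comm, mul_smul_comm, Finset.mul_sum, Finset.mul_sum]
  congr 1
  apply Finset.sum_congr rfl
  intro i _
  rw [Finset.mul_sum, Finset.mul_sum]
  exact Finset.sum_congr rfl fun j _ => h1 i j

end Ring

section
variable {A : Type*} [CStarAlgebra A] [PartialOrder A] [StarOrderedRing A]
variable {u v z : ZMod 5 → A}

/-- `ε = 1/√5`. -/
noncomputable def ep : ℝ := Real.sqrt (1 / 5)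

lemma ep_sq : ep ^ 2 = 1 / 5 := Real.sq_sqrt (by norm_num)
lemma ep_pos : 0 < ep := Real.sqrt_pos.mpr (by norm_num)
lemma ep_lt : ep < 1 / 2 := by
  have h1 := ep_sq
  have h2 := ep_pos
  nlinarith

lemma IsHeis.ineq (h : IsHeis u v z) :
    0 ≤ (1 - avg u) * (1 - avg v) + (1 - avg v) * (1 - avg u)
      + (ep : ℂ) • ((1 - avg u) + (1 - avg v)) := by
  have hez : (1 - avg z) * (1 - avg z) = 1 - avg z := by
    have : (1 - avg z) * (1 - avg z) = 1 - avg z - avg z + avg z * avg z := by noncomm_ring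
    rw [this, h.hz.avg_avg]; abel
  refine angle_ineq (e := 1 - avg z) ep_pos (by linarith [ep_lt]) h.hu.avg_avg h.hu.star_avg
    h.hv.avg_avg h.hv.star_avg hez ?_ ?_ ?_ ?_ ?_ ?_
  · rw [star_sub, star_one, h.hz.star_avg]
  · rw [sub_mul, mul_sub, one_mul, mul_one, h.ZP]
  · have := h.symm.ZP
    rw [avg_neg] at this
    rw [sub_mul, mul_sub, one_mul, mul_one, this]
  · rw [ep_sq]; exact h.ePQP
  · rw [ep_sq]
    have := h.symm.ePQP
    rwa [avg_neg] at this
  · rw [sub_sub_cancel]; exact h.comm1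

/-- The three-generator gap. -/
theorem three_gap {w : Fin 3 → ZMod 5 → A} {z0 z1 z2 : ZMod 5 → A}
    (h0 : IsHeis (w 0) (w 1) z0) (h1 : IsHeis (w 1) (w 2) z1) (h2 : IsHeis (w 2) (w 0) z2) :
    (((1 - 2 * ep) : ℝ) : ℂ) • (∑ i, (1 - avg (w i)))
      ≤ (∑ i, (1 - avg (w i))) * (∑ i, (1 - avg (w i))) := by
  rw [← sub_nonneg]
  have i0 := h0.ineq
  have i1 := h1.ineq
  have i2 := h2.ineq
  have key := add_nonneg (add_nonneg i0 i1) i2
  rw [Fin.sum_univ_three]
  have e : ∀ i : Fin 3, IsRep (w i) → (1 - avg (w i)) * (1 - avg (w i)) = 1 - avg (w i) := by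
    intro i hi
    have : (1 - avg (w i)) * (1 - avg (w i))
        = 1 - avg (w i) - avg (w i) + avg (w i) * avg (w i) := by noncomm_ring
    rw [this, hi.avg_avg]; abel
  have e0 := e 0 h0.hu
  have e1 := e 1 h1.hu
  have e2 := e 2 h2.hu
  generalize hq0 : 1 - avg (w 0) = q0 at *
  generalize hq1 : 1 - avg (w 1) = q1 at *
  generalize hq2 : 1 - avg (w 2) = q2 at *
  convert key using 1
  have : (q0 + q1 + q2) * (q0 + q1 + q2)
      = q0 * q0 + q1 * q1 + q2 * q2 + (q0 * q1 + q1 * q0) + (q1 * q2 + q2 * q1)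
        + (q2 * q0 + q0 * q2) := by noncomm_ring
  rw [this, e0, e1, e2]
  push_cast
  module

/-- If `a` is self-adjoint, `0 ≤ a`, `c a ≤ a²`, then the spectrum avoids `(0, c)`. -/
lemma spec_gap {a : A} {c : ℝ} (ha : 0 ≤ a) (hc : (c : ℂ) • a ≤ a * a) :
    ∀ r ∈ spectrum ℝ a, r = 0 ∨ c ≤ r := by
  intro r hr
  have hr0 : 0 ≤ r := spectrum_nonneg_of_nonneg ha hr
  have hsa : IsSelfAdjoint a := IsSelfAdjoint.of_nonneg ha
  have h1 : 0 ≤ a * a - (c : ℂ) • a := sub_nonneg.mpr hc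
  have h2 : a * a - (c : ℂ) • a = cfc (fun x : ℝ => x * x - c * x) a := by
    rw [cfc_sub (fun x : ℝ => x * x) (fun x : ℝ => c * x) a (by fun_prop) (by fun_prop),
      cfc_mul (fun x : ℝ => x) (fun x : ℝ => x) a (by fun_prop) (by fun_prop),
      cfc_const_mul c (fun x : ℝ => x) a (by fun_prop), cfc_id' ℝ a]
    rw [Complex.coe_smul]
  rw [h2, cfc_nonneg_iff (fun x : ℝ => x * x - c * x) a (by fun_prop)] at h1
  have h3 : 0 ≤ r * r - c * r := h1 r hr
  rcases hr0.eq_or_lt with h0 | h0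
  · left; exact h0.symm
  · right
    nlinarith

/-- Kazhdan projection. -/
lemma exists_proj {a : A} {c : ℝ} (hc0 : 0 < c) (ha : 0 ≤ a) (hc : (c : ℂ) • a ≤ a * a) :
    ∃ P : A, P * P = P ∧ star P = P ∧ a * P = 0 ∧ (c : ℂ) • (1 - P) ≤ a := by
  have hs := spec_gap ha hc
  have hsa : IsSelfAdjoint a := IsSelfAdjoint.of_nonneg ha
  have hcont : Continuous (fun x : ℝ => max 0 (1 - x / c)) := by fun_prop
  have hf : ∀ r ∈ spectrum ℝ a, r = 0 ∨ c ≤ r := hs
  have hf1 : ∀ r : ℝ, c ≤ r → max 0 (1 - r / c) = 0 := by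
    intro r hr
    apply max_eq_left
    have : 1 ≤ r / c := by rwa [le_div_iff₀ hc0, one_mul]
    linarith
  refine ⟨cfc (fun x : ℝ => max 0 (1 - x / c)) a, ?_, ?_, ?_, ?_⟩
  · rw [← cfc_mul (fun x : ℝ => max 0 (1 - x / c)) (fun x : ℝ => max 0 (1 - x / c)) a
      hcont.continuousOn hcont.continuousOn]
    apply cfc_congr
    intro r hr
    rcases hf r hr with h | h
    · simp [h]
    · simp only [hf1 r h, mul_zero]
  · exact (cfc_predicate (p := IsSelfAdjoint) (fun x : ℝ => max 0 (1 - x / c)) a)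
  · conv_lhs => rw [← cfc_id' ℝ a]
    rw [cfc_id' ℝ a]
    have : a * cfc (fun x : ℝ => max 0 (1 - x / c)) a
        = cfc (fun x : ℝ => x) a * cfc (fun x : ℝ => max 0 (1 - x / c)) a := by
      rw [cfc_id' ℝ a]
    rw [this, ← cfc_mul (fun x : ℝ => x) (fun x : ℝ => max 0 (1 - x / c)) a
      (by fun_prop) hcont.continuousOn]
    rw [cfc_congr (g := fun _ => (0 : ℝ)), cfc_const_zero]
    intro r hr
    rcases hf r hr with h | h
    · simp [h]
    · simp only [hf1 r h, mul_zero]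
  · rw [← sub_nonneg]
    have : a - (c : ℂ) • (1 - cfc (fun x : ℝ => max 0 (1 - x / c)) a)
        = cfc (fun x : ℝ => x - c * (1 - max 0 (1 - x / c))) a := by
      rw [cfc_sub (fun x : ℝ => x) (fun x : ℝ => c * (1 - max 0 (1 - x / c))) a (by fun_prop)
        (by fun_prop),
        cfc_const_mul c (fun x : ℝ => 1 - max 0 (1 - x / c)) a (by fun_prop),
        cfc_sub (fun _ : ℝ => 1) (fun x : ℝ => max 0 (1 - x / c)) a (by fun_prop)
          hcont.continuousOn,
        cfc_id' ℝ a, cfc_const_one ℝ a]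
      rw [Complex.coe_smul]
    rw [this]
    apply cfc_nonneg
    intro r hr
    rcases hf r hr with h | h
    · simp [h]
    · simp only [hf1 r h]; linarith

omit [PartialOrder A] [StarOrderedRing A] in
lemma gen_E {E P : A} {c : ℝ} (hEP : E * P = 0) (hPE : P * E = 0)
    (hPP : (1 - P) * (1 - P) = 1 - P) :
    (E + (c : ℂ) • (1 - P)) * (E + (c : ℂ) • (1 - P)) - (c : ℂ) • (E + (c : ℂ) • (1 - P))
      = E * E + (c : ℂ) • E := by
  have : (E + (c : ℂ) • (1 - P)) * (E + (c : ℂ) • (1 - P))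
      = E * E + (c : ℂ) • (E - E * P) + (c : ℂ) • (E - P * E)
        + ((c : ℂ) * c) • ((1 - P) * (1 - P)) := by
    rw [add_mul, mul_add, mul_add, smul_mul_smul_comm, mul_smul_comm, smul_mul_assoc,
      mul_sub E, sub_mul 1 P E, one_mul, mul_one]
    abel
  rw [this, hEP, hPE, hPP]
  module

/-- Final spectral estimate. -/
lemma final_spec {a b P : A} {c : ℝ} (hc0 : 0 < c) (hP : P * P = P) (hPs : star P = P)
    (ha : 0 ≤ a) (haP : a * P = 0) (hcP : (c : ℂ) • (1 - P) ≤ a) (hb : 0 ≤ b) (hbP : b * P = 0) :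
    ∀ r ∈ spectrum ℂ (a + b), r = 0 ∨ ∃ t : ℝ, c ≤ t ∧ r = t := by
  set E : A := a + b - (c : ℂ) • (1 - P) with hE
  have hab : 0 ≤ a + b := add_nonneg ha hb
  have hE0 : 0 ≤ E := by
    have : E = (a - (c : ℂ) • (1 - P)) + b := by rw [hE]; abel
    rw [this]
    exact add_nonneg (sub_nonneg.mpr hcP) hb
  have hEs : star E = E := (IsSelfAdjoint.of_nonneg hE0)
  have hEP : E * P = 0 := by
    have : E * P = a * P + b * P - (c : ℂ) • (P - P * P) := by
      rw [hE, sub_mul, add_mul, smul_mul_assoc, sub_mul, one_mul]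
    rw [this, haP, hbP, hP]; simp
  have hPE : P * E = 0 := by
    have := congrArg star hEP
    rwa [star_mul, hEs, hPs, star_zero] at this
  have hab' : a + b = E + (c : ℂ) • (1 - P) := by rw [hE]; abel
  have hPP : (1 - P) * (1 - P) = 1 - P := by
    have : (1 - P) * (1 - P) = 1 - P - P + P * P := by noncomm_ring
    rw [this, hP]; abel
  have h1 : (c : ℂ) • (a + b) ≤ (a + b) * (a + b) := by
    rw [← sub_nonneg]
    have e1 : (a + b) * (a + b) - (c : ℂ) • (a + b) = E * E + (c : ℂ) • E := by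
      rw [hab']
      exact gen_E hEP hPE hPP
    rw [e1]
    apply add_nonneg
    · have := star_mul_self_nonneg E
      rwa [hEs] at this
    · rw [Complex.coe_smul]; exact smul_nonneg hc0.le hE0
  intro r hr
  have hsa : IsSelfAdjoint (a + b) := IsSelfAdjoint.of_nonneg hab
  have hr' : r = (r.re : ℂ) := hsa.mem_spectrum_eq_re hr
  have hr2 : r.re ∈ spectrum ℝ (a + b) := by
    rw [hr'] at hr
    exact (spectrum.algebraMap_mem_iff ℂ).mp hr
  rcases spec_gap hab h1 _ hr2 with h | h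
  · left; rw [hr', h]; simp
  · right; exact ⟨r.re, h, hr'⟩

end

end Pool.Agent.H494R3.GT
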