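import Pool.Agent.H494R3.GT.Ops

set_option autoImplicit false
set_option linter.style.haveILetI false
set_option linter.unusedVariables false

namespace Pool.Agent.H494R3.GT

section norms
variable {B : Type*} [CStarAlgebra B]

lemma norm_proj_le {p : B} (h : p * p = p) (hs : star p = p) : ‖p‖ ≤ 1 := by
  have h1 : ‖star p * p‖ = ‖p‖ * ‖p‖ := CStarRing.norm_star_mul_self
  rw [hs, h] at h1
  rcases (norm_nonneg p).eq_or_lt with h0 | h0
  · rw [← h0]; exact zero_le_one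
  · have : ‖p‖ * 1 = ‖p‖ * ‖p‖ := by rw [mul_one]; exact h1
    exact (mul_left_cancel₀ h0.ne' this).ge

lemma norm_unit_le {u : B} (h : star u * u = 1) : ‖u‖ ≤ 1 := by
  have h1 : ‖star u * u‖ = ‖u‖ * ‖u‖ := CStarRing.norm_star_mul_self
  have h2 : ‖(1 : B)‖ ≤ 1 := norm_proj_le (one_mul 1) (star_one B)
  rw [h] at h1
  have h3 := norm_nonneg u
  nlinarith

end norms

variable {P : Type} {B : Type*} [CStarAlgebra B]
  (𝒜 : StarSubalgebra ℂ (L2 P →L[ℂ] L2 P)) (π : 𝒜 →⋆ₐ[ℂ] B) (p : B)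

/-- permutations implemented in `𝒜` and absorbed by `p` -/
def absorb : Subgroup (Equiv.Perm P) where
  carrier := {τ | ∃ h : UU τ ∈ 𝒜, π ⟨UU τ, h⟩ * p = p}
  one_mem' := by
    refine ⟨by rw [UU_one]; exact one_mem _, ?_⟩
    have : (⟨UU (1 : Equiv.Perm P), by rw [UU_one]; exact one_mem _⟩ : 𝒜) = 1 :=
      Subtype.ext UU_one
    rw [this, map_one, one_mul]
  mul_mem' := by
    rintro τ σ ⟨h1, h2⟩ ⟨h3, h4⟩
    refine ⟨by rw [← UU_mul]; exact mul_mem h1 h3, ?_⟩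
    have : (⟨UU (τ * σ), by rw [← UU_mul]; exact mul_mem h1 h3⟩ : 𝒜)
        = ⟨UU τ, h1⟩ * ⟨UU σ, h3⟩ := Subtype.ext (UU_mul τ σ).symm
    rw [this, map_mul, mul_assoc, h4, h2]
  inv_mem' := by
    rintro τ ⟨h1, h2⟩
    have h3 : UU τ⁻¹ ∈ 𝒜 := by rw [← star_UU]; exact star_mem h1
    refine ⟨h3, ?_⟩
    have : (⟨UU τ⁻¹, h3⟩ : 𝒜) * ⟨UU τ, h1⟩ = 1 := Subtype.ext (by
      show UU τ⁻¹ * UU τ = 1
      rw [UU_mul, inv_mul_cancel, UU_one])
    calc π ⟨UU τ⁻¹, h3⟩ * p = π ⟨UU τ⁻¹, h3⟩ * (π ⟨UU τ, h1⟩ * p) := by rw [h2]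
      _ = π (⟨UU τ⁻¹, h3⟩ * ⟨UU τ, h1⟩) * p := by rw [map_mul, mul_assoc]
      _ = p := by rw [this, map_one, one_mul]

variable (hMM : ∀ A, MM A ∈ 𝒜)

include hMM in
lemma absorb_MM {τ : Equiv.Perm P} (hτ : τ ∈ absorb 𝒜 π p) (A : Set P) :
    ∃ h : UU τ ∈ 𝒜, π ⟨UU τ, h⟩ * (π ⟨MM A, hMM A⟩ * p) = π ⟨MM (τ '' A), hMM _⟩ * p := by
  obtain ⟨h, h2⟩ := hτ
  refine ⟨h, ?_⟩
  have : (⟨UU τ, h⟩ : 𝒜) * ⟨MM A, hMM A⟩ = ⟨MM (τ '' A), hMM _⟩ * ⟨UU τ, h⟩ :=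
    Subtype.ext (UU_MM τ A)
  rw [← mul_assoc, ← map_mul, this, map_mul, mul_assoc, h2]

include hMM in
lemma absorb_PMP (hps : star p = p) {τ : Equiv.Perm P} (hτ : τ ∈ absorb 𝒜 π p) (A : Set P) :
    p * (π ⟨MM (τ '' A), hMM _⟩ * p) = p * (π ⟨MM A, hMM _⟩ * p) := by
  obtain ⟨h, h2⟩ := absorb_MM 𝒜 π p hMM hτ A
  have h3 := hτ.choose_spec
  have h4 : p * star (π ⟨UU τ, h⟩) = p := by
    have := congrArg star h3
    rw [star_mul, hps] at this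
    exact this
  have h5 : star (π ⟨UU τ, h⟩) * π ⟨UU τ, h⟩ = 1 := by
    rw [← map_star, ← map_mul]
    have : star (⟨UU τ, h⟩ : 𝒜) * ⟨UU τ, h⟩ = 1 := Subtype.ext (by
      show star (UU τ) * UU τ = 1
      rw [star_UU, UU_mul, inv_mul_cancel, UU_one])
    rw [this, map_one]
  rw [← h2]
  calc p * (π ⟨UU τ, h⟩ * (π ⟨MM A, hMM A⟩ * p))
      = (p * star (π ⟨UU τ, h⟩)) * (π ⟨UU τ, h⟩ * (π ⟨MM A, hMM A⟩ * p)) := by rw [h4]
    _ = p * ((star (π ⟨UU τ, h⟩) * π ⟨UU τ, h⟩) * (π ⟨MM A, hMM A⟩ * p)) := by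
        simp only [mul_assoc]
    _ = _ := by rw [h5, one_mul]

include hMM in
/-- Norm bound: if `K` translates of `Z` are disjoint then `K ‖M_Z p‖² ≤ 1`. -/
lemma norm_bound (hp : p * p = p) (hps : star p = p) {h : Equiv.Perm P}
    (hh : h ∈ absorb 𝒜 π p) (Z : Set P) (K : ℕ)
    (hd : ∀ i < K, ∀ j < K, i ≠ j →
      Disjoint ((h ^ i : Equiv.Perm P) '' Z) ((h ^ j : Equiv.Perm P) '' Z)) :
    (K : ℝ) * ‖π ⟨MM Z, hMM Z⟩ * p‖ ^ 2 ≤ 1 := by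
  set z : B := π ⟨MM Z, hMM Z⟩ with hz
  have hproj : ∀ A, π ⟨MM A, hMM A⟩ * π ⟨MM A, hMM A⟩ = π ⟨MM A, hMM A⟩ := by
    intro A
    rw [← map_mul]
    congr 1
    exact Subtype.ext (MM_mul_self A)
  have hstar : ∀ A, star (π ⟨MM A, hMM A⟩) = π ⟨MM A, hMM A⟩ := by
    intro A
    rw [← map_star]
    congr 1
    exact Subtype.ext (star_MM A)
  have h1 : ∀ i, p * (π ⟨MM ((h ^ i : Equiv.Perm P) '' Z), hMM _⟩ * p) = p * (z * p) := by
    intro i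
    exact absorb_PMP 𝒜 π p hMM hps (pow_mem hh i) Z
  have h2 : (⟨MM (⋃ i ∈ Finset.range K, (h ^ i : Equiv.Perm P) '' Z), hMM _⟩ : 𝒜)
      = ∑ i ∈ Finset.range K, ⟨MM ((h ^ i : Equiv.Perm P) '' Z), hMM _⟩ := by
    apply Subtype.ext
    have e : MM (⋃ i ∈ Finset.range K, (h ^ i : Equiv.Perm P) '' Z)
        = ∑ i ∈ Finset.range K, MM ((h ^ i : Equiv.Perm P) '' Z) := by
      rw [MM_biUnion]
      intro i hi j hj hij
      exact hd i (Finset.mem_range.mp hi) j (Finset.mem_range.mp hj) hij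
    show MM (⋃ i ∈ Finset.range K, (h ^ i : Equiv.Perm P) '' Z) = _
    rw [e]
    simp
  have h3 : p * (π ⟨MM (⋃ i ∈ Finset.range K, (h ^ i : Equiv.Perm P) '' Z), hMM _⟩ * p) = K • (p * (z * p)) := by
    rw [h2, map_sum, Finset.sum_mul, Finset.mul_sum]
    simp only [h1]
    rw [Finset.sum_const, Finset.card_range]
  have h4 : ‖p‖ ≤ 1 := norm_proj_le hp hps
  have h5 : ‖p * (π ⟨MM (⋃ i ∈ Finset.range K, (h ^ i : Equiv.Perm P) '' Z), hMM _⟩ * p)‖ ≤ 1 := by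
    have a1 := norm_proj_le (hproj (⋃ i ∈ Finset.range K, (h ^ i : Equiv.Perm P) '' Z)) (hstar _)
    calc _ ≤ ‖p‖ * (‖π ⟨MM (⋃ i ∈ Finset.range K, (h ^ i : Equiv.Perm P) '' Z), hMM _⟩‖ * ‖p‖) := by
          refine (norm_mul_le _ _).trans ?_
          gcongr
          exact norm_mul_le _ _
      _ ≤ 1 * (1 * 1) := by gcongr
      _ = 1 := by norm_num
  have h6 : ‖z * p‖ ^ 2 = ‖p * (z * p)‖ := by
    have : star (z * p) * (z * p) = p * (z * p) := by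
      rw [star_mul, hps, hz, hstar, mul_assoc, ← mul_assoc (π ⟨MM Z, hMM Z⟩), hproj]
    rw [← this, CStarRing.norm_star_mul_self, sq]
  rw [h6]
  rw [h3] at h5
  have h7 : ‖K • (p * (z * p))‖ = K * ‖p * (z * p)‖ := by
    rw [← Nat.cast_smul_eq_nsmul ℝ, norm_smul]
    simp
  rwa [h7] at h5

include hMM in
/-- The sparse perturbation is absorbed by `p`. -/
theorem sparse_absorb (hp : p * p = p) (hps : star p = p)
    (bl : P → ℕ) (hfin : ∀ n, {x | bl x < n}.Finite)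
    (htr : ∀ x y, bl x = bl y → ∃ τ ∈ absorb 𝒜 π p, τ x = y)
    (σ : Equiv.Perm P) (hσ : UU σ ∈ 𝒜) (hσb : ∀ x, bl (σ x) = bl x)
    (Y : Set P) (hY : ∀ x, x ∉ Y → σ x = x)
    (h : Equiv.Perm P) (hh : h ∈ absorb 𝒜 π p)
    (hsep : ∀ K : ℕ, ∃ N : ℕ, ∀ x ∈ Y, ∀ y ∈ Y, N ≤ bl x → N ≤ bl y → ∀ i < K, ∀ j < K,
      (h ^ i) x = (h ^ j) y → i = j) :
    σ ∈ absorb 𝒜 π p := by
  refine ⟨hσ, ?_⟩
  set s : B := π ⟨UU σ, hσ⟩ with hs
  have hs1 : star s * s = 1 := by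
    rw [hs, ← map_star, ← map_mul]
    have : star (⟨UU σ, hσ⟩ : 𝒜) * ⟨UU σ, hσ⟩ = 1 := Subtype.ext (by
      show star (UU σ) * UU σ = 1
      rw [star_UU, UU_mul, inv_mul_cancel, UU_one])
    rw [this, map_one]
  have hsn : ‖s - 1‖ ≤ 2 := by
    have a1 := norm_unit_le hs1
    have a2 : ‖(1 : B)‖ ≤ 1 := norm_proj_le (one_mul 1) (star_one B)
    calc ‖s - 1‖ ≤ ‖s‖ + ‖(1 : B)‖ := norm_sub_le _ _
      _ ≤ 1 + 1 := add_le_add a1 a2
      _ = 2 := by norm_num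
  -- key estimate
  have key : ∀ K : ℕ, (K : ℝ) * ‖(s - 1) * p‖ ^ 2 ≤ 4 := by
    intro K
    obtain ⟨N, hN⟩ := hsep K
    set F : Set P := {x | bl x < N} with hF
    set Z : Set P := {x | N ≤ bl x} ∩ Y with hZ
    set Z' : Set P := {x | N ≤ bl x} \ Y with hZ'
    have hFfin : F.Finite := hfin N
    -- finite part
    have hx : ∀ x, s * (π ⟨MM {x}, hMM _⟩ * p) = π ⟨MM {σ x}, hMM _⟩ * p := by
      intro x
      obtain ⟨τ, hτ, hτx⟩ := htr x (σ x) (hσb x).symm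
      obtain ⟨hτ1, hτ2⟩ := absorb_MM 𝒜 π p hMM hτ {x}
      have e1 : (⟨UU σ, hσ⟩ : 𝒜) * ⟨MM {x}, hMM _⟩ = ⟨UU τ, hτ1⟩ * ⟨MM {x}, hMM _⟩ :=
        Subtype.ext (UU_MM_singleton hτx.symm)
      rw [hs, ← mul_assoc, ← map_mul, e1, map_mul, mul_assoc, hτ2]
      simp only [Set.image_singleton, hτx]
    have hFsum : (⟨MM F, hMM _⟩ : 𝒜) = ∑ x ∈ hFfin.toFinset, ⟨MM {x}, hMM _⟩ := by
      apply Subtype.ext
      have hFe : F = ⋃ x ∈ hFfin.toFinset, {x} := by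
        ext y; simp
      have hFM : MM F = ∑ x ∈ hFfin.toFinset, MM {x} := by
        conv_lhs => rw [hFe]
        rw [MM_biUnion]
        intro i _ j _ hij
        simpa using hij
      show MM F = _
      rw [hFM]
      simp
    have hFp : s * (π ⟨MM F, hMM _⟩ * p) = π ⟨MM F, hMM _⟩ * p := by
      rw [hFsum, map_sum, Finset.sum_mul, Finset.mul_sum]
      simp only [hx]
      apply Finset.sum_nbij (fun x => σ x)
      · intro x hx
        simp only [Set.Finite.mem_toFinset] at hx ⊢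
        show bl (σ x) < N
        rw [hσb]; exact hx
      · exact σ.injective.injOn
      · intro x hx
        simp only [Finset.mem_coe, Set.Finite.mem_toFinset] at hx
        refine ⟨σ⁻¹ x, ?_, ?_⟩
        · simp only [Finset.mem_coe, Set.Finite.mem_toFinset]
          show bl (σ⁻¹ x) < N
          have e : σ (σ⁻¹ x) = x := by simp
          rw [← hσb, e]
          exact hx
        · simp
      · intro x _; rfl
    have hZ'p : s * (π ⟨MM Z', hMM _⟩ * p) = π ⟨MM Z', hMM _⟩ * p := by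
      have e1 : (⟨UU σ, hσ⟩ : 𝒜) * ⟨MM Z', hMM _⟩ = ⟨MM Z', hMM _⟩ :=
        Subtype.ext (UU_MM_fix fun x hx => hY x hx.2)
      rw [hs, ← mul_assoc, ← map_mul, e1]
    have hone : (1 : 𝒜) = ⟨MM F, hMM _⟩ + (⟨MM Z, hMM _⟩ + ⟨MM Z', hMM _⟩) := by
      apply Subtype.ext
      show (1 : L2 P →L[ℂ] L2 P) = MM F + (MM Z + MM Z')
      rw [← MM_union, ← MM_union, ← MM_univ]
      · congr 1
        ext x
        simp only [Set.mem_univ, true_iff, hF, hZ, hZ', Set.mem_union, Set.mem_ofPred_eq,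
          Set.mem_inter_iff, Set.mem_sdiff]
        by_cases h1 : bl x < N
        · left; exact h1
        · right
          by_cases h2 : x ∈ Y
          · left; exact ⟨not_lt.mp h1, h2⟩
          · right; exact ⟨not_lt.mp h1, h2⟩
      · rw [Set.disjoint_left]
        rintro x hx1 (hx2 | hx2)
        · exact absurd (show N ≤ bl x from hx2.1) (not_le.mpr hx1)
        · exact absurd (show N ≤ bl x from hx2.1) (not_le.mpr hx1)
      · rw [Set.disjoint_left]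
        rintro x hx1 hx2
        exact hx2.2 hx1.2
    have hdec : (s - 1) * p = (s - 1) * (π ⟨MM Z, hMM _⟩ * p) := by
      have e1 : p = π ⟨MM F, hMM _⟩ * p + (π ⟨MM Z, hMM _⟩ * p + π ⟨MM Z', hMM _⟩ * p) := by
        rw [← add_mul, ← add_mul, ← map_add, ← map_add, ← hone, map_one, one_mul]
      conv_lhs => rw [e1]
      rw [mul_add, mul_add, sub_mul s 1 (π ⟨MM F, hMM _⟩ * p), one_mul, hFp, sub_self,
        sub_mul s 1 (π ⟨MM Z', hMM _⟩ * p), one_mul, hZ'p, sub_self, zero_add, add_zero]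
    have hb := norm_bound 𝒜 π p hMM hp hps hh Z K (by
      intro i hi j hj hij
      rw [Set.disjoint_left]
      rintro _ ⟨x, hx, rfl⟩ ⟨y, hy, hxy⟩
      exact hij (hN x hx.2 y hy.2 hx.1 hy.1 i hi j hj hxy.symm))
    have hle : ‖(s - 1) * p‖ ≤ 2 * ‖π ⟨MM Z, hMM _⟩ * p‖ := by
      rw [hdec]
      exact (norm_mul_le _ _).trans (by gcongr)
    have h0 := norm_nonneg ((s - 1) * p)
    have h1 := norm_nonneg (π ⟨MM Z, hMM _⟩ * p)
    calc (K : ℝ) * ‖(s - 1) * p‖ ^ 2 ≤ K * (2 * ‖π ⟨MM Z, hMM _⟩ * p‖) ^ 2 := by gcongr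
      _ = 4 * (K * ‖π ⟨MM Z, hMM _⟩ * p‖ ^ 2) := by ring
      _ ≤ 4 * 1 := by gcongr
      _ = 4 := by norm_num
  have h0 : ‖(s - 1) * p‖ = 0 := by
    by_contra hne
    have hpos : 0 < ‖(s - 1) * p‖ ^ 2 := by positivity
    obtain ⟨K, hK⟩ := exists_nat_gt (4 / ‖(s - 1) * p‖ ^ 2)
    rw [div_lt_iff₀ hpos] at hK
    exact absurd (key K) (not_le.mpr hK)
  have h1 := norm_eq_zero.mp h0
  rw [sub_mul, one_mul, sub_eq_zero] at h1
  exact h1

end Pool.Agent.H494R3.GT
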