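import Pool.Agent.H494R3.GT.Defs
import Pool.Agent.H494R3.GT.Geo
import Pool.Agent.H494R3.GT.Grp

set_option autoImplicit false
set_option linter.style.haveILetI false
set_option linter.unusedVariables false

namespace Pool.Agent.H494R3.GT

open scoped Pointwise

/-- size parameter of block `m` -/
def Nm (m : ℕ) : ℕ := (m + 1) * 15 ^ (m + 2) + m + 2

/-- vertex sets -/
abbrev Vx (m : ℕ) : Type := ↥(Gn (Nm m))

/-- all points -/
abbrev Px : Type := Σ m, Vx m

/-- blockwise left multiplication -/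
def lm (s : ∀ m, Vx m) : Equiv.Perm Px := Equiv.sigmaCongrRight fun m => Equiv.mulLeft (s m)

lemma lm_apply (s : ∀ m, Vx m) (m : ℕ) (x : Vx m) : lm s ⟨m, x⟩ = ⟨m, s m * x⟩ := rfl

lemma lm_mul (s s' : ∀ m, Vx m) : lm (s * s') = lm s * lm s' := by
  apply Equiv.ext
  rintro ⟨m, x⟩
  rw [Equiv.Perm.mul_apply, lm_apply, lm_apply, lm_apply, Pi.mul_apply, mul_assoc]

lemma lm_one : lm 1 = 1 := by
  apply Equiv.ext
  rintro ⟨m, x⟩
  rw [lm_apply, Pi.one_apply, one_mul]; rfl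

lemma lm_inv (s : ∀ m, Vx m) : lm s⁻¹ = (lm s)⁻¹ := by
  rw [eq_inv_iff_mul_eq_one, ← lm_mul, inv_mul_cancel, lm_one]

lemma lm_fst (s : ∀ m, Vx m) (x : Px) : (lm s x).1 = x.1 := rfl

def sx (i : Fin 3) (a : ZMod 5) : ∀ m, Vx m := fun m => ⟨sh (Nm m) i a, sh_mem _ _ _⟩
def zx (i : Fin 3) (a : ZMod 5) : ∀ m, Vx m := fun m => ⟨zh (Nm m) i a, zh_mem _ _ _⟩
def hx : ∀ m, Vx m := fun m => ⟨hh (Nm m), hh_mem _⟩

lemma sx_zero (i : Fin 3) : sx i 0 = 1 := by
  funext m; exact Subtype.ext (sh_zero _ _)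
lemma zx_zero (i : Fin 3) : zx i 0 = 1 := by
  funext m; exact Subtype.ext (zh_zero _ _)
lemma sx_add (i : Fin 3) (a b : ZMod 5) : sx i (a + b) = sx i a * sx i b := by
  funext m; exact Subtype.ext (sh_add _ _ _ _)
lemma zx_add (i : Fin 3) (a b : ZMod 5) : zx i (a + b) = zx i a * zx i b := by
  funext m; exact Subtype.ext (zh_add _ _ _ _)
lemma sx_neg (i : Fin 3) (a : ZMod 5) : sx i (-a) = (sx i a)⁻¹ := by
  rw [eq_inv_iff_mul_eq_one, ← sx_add, neg_add_cancel, sx_zero]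
lemma zx_neg (i : Fin 3) (a : ZMod 5) : zx i (-a) = (zx i a)⁻¹ := by
  rw [eq_inv_iff_mul_eq_one, ← zx_add, neg_add_cancel, zx_zero]
lemma relx (i : Fin 3) (a b : ZMod 5) :
    sx i a * sx (i + 1) b = zx i (a * b) * (sx (i + 1) b * sx i a) := by
  funext m
  apply Subtype.ext
  fin_cases i
  · exact rel0 _ _ _
  · exact rel1 _ _ _
  · exact rel2 _ _ _
lemma zrelx (i : Fin 3) (a b : ZMod 5) : zx i a * sx i b = sx i b * zx i a := by
  funext m; exact Subtype.ext (zrel _ _ _ _)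
lemma zrelx' (i : Fin 3) (a b : ZMod 5) : zx i a * sx (i + 1) b = sx (i + 1) b * zx i a := by
  funext m; exact Subtype.ext (zrel' _ _ _ _)
lemma hx_eq : hx = sx 0 1 * sx 1 1 * sx 2 1 := rfl

/-- generating set of permutations -/
def Tx : Set (Equiv.Perm Px) := Set.range fun p : Fin 3 × ZMod 5 => lm (sx p.1 p.2)

lemma one_mem_Tx : (1 : Equiv.Perm Px) ∈ Tx := ⟨(0, 0), by simp only [sx_zero, lm_one]⟩

lemma inv_mem_Tx {τ : Equiv.Perm Px} (h : τ ∈ Tx) : τ⁻¹ ∈ Tx := by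
  obtain ⟨p, rfl⟩ := h
  exact ⟨(p.1, -p.2), by simp only [sx_neg, lm_inv]⟩

lemma pow_inv_Tx {r : ℕ} {τ : Equiv.Perm Px} (h : τ ∈ Tx ^ r) : τ⁻¹ ∈ Tx ^ r := by
  have h1 : Tx⁻¹ = Tx := by
    ext σ
    rw [Set.mem_inv]
    exact ⟨fun h => by simpa using inv_mem_Tx h, fun h => inv_mem_Tx h⟩
  have h2 : (Tx ^ r)⁻¹ = Tx ^ r := by rw [← inv_pow, h1]
  rw [← h2]
  simpa using h

open scoped Classical in
/-- generators in block `m` -/
noncomputable def Sm (m : ℕ) : Finset (Vx m) :=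
  Finset.univ.image fun p : Fin 3 × ZMod 5 => sx p.1 p.2 m

open scoped Classical in
lemma Sm_card (m : ℕ) : (Sm m).card ≤ 15 := by
  refine Finset.card_image_le.trans ?_
  rw [Finset.card_univ]
  simp [ZMod.card]

open scoped Classical in
lemma pow_Tx {r : ℕ} : ∀ {τ : Equiv.Perm Px}, τ ∈ Tx ^ r → ∀ m, ∃ g ∈ (Sm m) ^ r,
    ∀ x : Vx m, τ ⟨m, x⟩ = ⟨m, g * x⟩ := by
  induction r with
  | zero =>
    intro τ h m
    rw [pow_zero, Set.mem_one] at h
    refine ⟨1, by rw [pow_zero]; exact Finset.one_mem_one, ?_⟩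
    intro x
    rw [h, one_mul]; rfl
  | succ r ih =>
    intro τ h m
    rw [pow_succ, Set.mem_mul] at h
    obtain ⟨a, ha, b, ⟨p, rfl⟩, rfl⟩ := h
    obtain ⟨g, hg, hgx⟩ := ih ha m
    refine ⟨g * sx p.1 p.2 m, ?_, ?_⟩
    · rw [pow_succ]
      apply Finset.mul_mem_mul hg
      rw [Sm, Finset.mem_image]
      exact ⟨p, Finset.mem_univ _, rfl⟩
    · intro x
      rw [Equiv.Perm.mul_apply, lm_apply, hgx, mul_assoc]

open scoped Classical in
lemma exists_y (m : ℕ) : ∃ y : ℕ → Vx m, ∀ k ≤ m, ∀ j < k, y k * (y j)⁻¹ ∉ (Sm m) ^ (m + 2) := by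
  apply greedy
  have h1 : ((Sm m) ^ (m + 2)).card ≤ 15 ^ (m + 2) :=
    Finset.card_pow_le.trans (Nat.pow_le_pow_left (Sm_card m) _)
  have h2 : Nm m ≤ Nat.card (Vx m) := card_Gn (Nm m)
  have h3 : (m + 1) * ((Sm m) ^ (m + 2)).card ≤ (m + 1) * 15 ^ (m + 2) :=
    Nat.mul_le_mul_left _ h1
  have h4 : (m + 1) * 15 ^ (m + 2) < Nm m := by unfold Nm; omega
  omega

noncomputable def yx (m k : ℕ) : Px := ⟨m, (exists_y m).choose k⟩

lemma sep_lt {m k k' : ℕ} (hk' : k' ≤ m) (hlt : k < k') {τ : Equiv.Perm Px}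
    (hτ : τ ∈ Tx ^ (m + 2)) : τ (yx m k) ≠ yx m k' := by
  classical
  intro h
  obtain ⟨g, hg, hgx⟩ := pow_Tx hτ m
  rw [yx, yx, hgx] at h
  have h2 := eq_of_heq (Sigma.mk.inj h).2
  apply (exists_y m).choose_spec k' hk' k hlt
  rw [← h2, mul_inv_cancel_right]
  convert hg

lemma sep_x (m : ℕ) : ∀ k ≤ m, ∀ k' ≤ m, ∀ τ ∈ Tx ^ (m + 2), τ (yx m k) = yx m k' → k = k' := by
  intro k hk k' hk' τ hτ h
  rcases lt_trichotomy k k' with h1 | h1 | h1
  · exact absurd h (sep_lt hk' h1 hτ)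
  · exact h1
  · exfalso
    apply sep_lt hk h1 (pow_inv_Tx hτ)
    rw [← h]; simp

lemma yx_inj {m k k' : ℕ} (hk : k ≤ m) (hk' : k' ≤ m) (h : yx m k = yx m k') : k = k' :=
  sep_x m k hk k' hk' 1 (Set.pow_subset_pow_right one_mem_Tx (Nat.zero_le _)
    (by rw [pow_zero]; exact Set.one_mem_one)) h

open scoped Classical in
/-- path involutions -/
noncomputable def sgf (e : ℕ) (x : Px) : Px :=
  if h : ∃ k, k ≤ x.1 ∧ x = yx x.1 k then yx x.1 (nx e x.1 h.choose) else x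

lemma sgf_fix (e : ℕ) (x : Px) (h : ∀ m, ∀ k ≤ m, x ≠ yx m k) : sgf e x = x := by
  rw [sgf, dif_neg]
  rintro ⟨k, hk, e⟩
  exact h _ k hk e

lemma sgf_val (e m k : ℕ) (hk : k ≤ m) : sgf e (yx m k) = yx m (nx e m k) := by
  have h : ∃ k', k' ≤ (yx m k).1 ∧ yx m k = yx (yx m k).1 k' := ⟨k, hk, rfl⟩
  rw [sgf, dif_pos h]
  have h1 := h.choose_spec
  have h2 : h.choose = k := (yx_inj (m := m) hk h1.1 h1.2).symm
  rw [h2]
  rfl

lemma nx_nx {e m k : ℕ} (hk : k ≤ m) : nx e m (nx e m k) = k := by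
  unfold nx
  split_ifs <;> omega

lemma sgf_sgf (e : ℕ) (x : Px) : sgf e (sgf e x) = x := by
  by_cases h : ∀ m, ∀ k ≤ m, x ≠ yx m k
  · rw [sgf_fix e x h, sgf_fix e x h]
  · push Not at h
    obtain ⟨m, k, hk, rfl⟩ := h
    rw [sgf_val _ _ _ hk, sgf_val _ _ _ (nx_le hk), nx_nx hk]

noncomputable def sgx (e : ℕ) : Equiv.Perm Px where
  toFun := sgf e
  invFun := sgf e
  left_inv := sgf_sgf e
  right_inv := sgf_sgf e

lemma sgx_inv (e : ℕ) : (sgx e)⁻¹ = sgx e := rfl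

lemma sgx_fst (e : ℕ) (x : Px) : (sgx e x).1 = x.1 := by
  show (sgf e x).1 = x.1
  by_cases h : ∀ m, ∀ k ≤ m, x ≠ yx m k
  · rw [sgf_fix e x h]
  · push Not at h
    obtain ⟨m, k, hk, rfl⟩ := h
    rw [sgf_val _ _ _ hk]; rfl

lemma Px_fin (m : ℕ) : {x : Px | x.1 = m}.Finite := by
  have : {x : Px | x.1 = m} = Set.range (fun v : Vx m => (⟨m, v⟩ : Px)) := by
    ext ⟨m', v⟩
    constructor
    · intro h
      have h' : m' = m := h
      subst h'
      exact ⟨v, rfl⟩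
    · rintro ⟨w, hw⟩
      have := congrArg Sigma.fst hw
      exact this.symm
  rw [this]
  exact Set.finite_range _

/-- the geometric data -/
noncomputable def gx : Geo Px where
  bl := Sigma.fst
  fin := Px_fin
  T := Tx
  one := one_mem_Tx
  inv _ h := inv_mem_Tx h
  blT := by rintro _ ⟨p, rfl⟩ x; rfl
  yy := yx
  bly _ _ := rfl
  sep := sep_x
  sg := sgx
  sg_fix := sgf_fix
  sg_val := sgf_val

/-- index set of all elementary moves -/
abbrev Jx : Type := (Fin 3 × ZMod 5) ⊕ Fin 2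

/-- all elementary moves -/
noncomputable def tx : Jx → Equiv.Perm Px
  | Sum.inl p => lm (sx p.1 p.2)
  | Sum.inr e => sgx e

/-- inverse on the index set -/
def jinv : Jx ≃ Jx where
  toFun := Sum.map (fun p => (p.1, -p.2)) id
  invFun := Sum.map (fun p => (p.1, -p.2)) id
  left_inv := by rintro (⟨i, a⟩ | e) <;> simp
  right_inv := by rintro (⟨i, a⟩ | e) <;> simp

lemma tx_jinv (j : Jx) : tx (jinv j) = (tx j)⁻¹ := by
  rcases j with ⟨i, a⟩ | e
  · show lm (sx i (-a)) = (lm (sx i a))⁻¹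
    rw [sx_neg, lm_inv]
  · rfl

lemma tx_fst (j : Jx) (x : Px) : (tx j x).1 = x.1 := by
  rcases j with ⟨i, a⟩ | e
  · rfl
  · exact sgx_fst _ _

/-- The box space. -/
noncomputable abbrev BX : BoxSpace where
  V := Vx
  finite _ := inferInstance
  G m :=
    { Adj := fun a b => a ≠ b ∧ ∃ j : Jx, tx j ⟨m, a⟩ = ⟨m, b⟩
      symm := ⟨by
        rintro a b ⟨h1, j, hj⟩
        refine ⟨h1.symm, jinv j, ?_⟩
        rw [tx_jinv, ← hj]; simp⟩
      loopless := ⟨fun a h => h.1 rfl⟩ }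
  deg := Fintype.card Jx
  deg_le m a := by
    have h0 : Function.Injective (fun b : Vx m => (⟨m, b⟩ : Px)) :=
      fun b b' h => eq_of_heq (Sigma.mk.inj h).2
    have h1 : (fun b : Vx m => (⟨m, b⟩ : Px)) ''
        {b : Vx m | a ≠ b ∧ ∃ j : Jx, tx j ⟨m, a⟩ = ⟨m, b⟩}
        ⊆ Set.range (fun j : Jx => tx j ⟨m, a⟩) := by
      rintro _ ⟨b, ⟨_, j, hj⟩, rfl⟩
      exact ⟨j, hj⟩
    rw [← Set.ncard_image_of_injective _ h0]
    refine (Set.ncard_le_ncard h1 (Set.finite_range _)).trans ?_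
    rw [← Set.image_univ]
    refine (Set.ncard_image_le Set.finite_univ).trans ?_
    rw [Set.ncard_univ, Nat.card_eq_fintype_card]
  card_tendsto := by
    apply Filter.tendsto_atTop_mono (f := fun m => m)
    · intro m
      refine le_trans ?_ (card_Gn (Nm m))
      unfold Nm
      omega
    · exact Filter.tendsto_id

lemma BX_adj (p q : Px) : BX.graph.Adj p q ↔ p ≠ q ∧ ∃ j : Jx, tx j p = q := by
  constructor
  · rintro ⟨m, a, b, rfl, rfl, h1, j, hj⟩
    refine ⟨?_, j, hj⟩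
    intro h
    exact h1 (eq_of_heq (Sigma.mk.inj h).2)
  · rintro ⟨h1, j, hj⟩
    obtain ⟨m, a⟩ := p
    obtain ⟨m', b⟩ := q
    have : m' = m := by
      have := congrArg Sigma.fst hj
      rw [tx_fst] at this
      exact this.symm
    subst this
    refine ⟨m', a, b, rfl, rfl, ?_, j, hj⟩
    rintro rfl
    exact h1 rfl

lemma BX_compat : gx.Compat BX.graph := by
  intro p q h
  rw [BX_adj] at h
  obtain ⟨h1, j, hj⟩ := h
  rcases j with p' | e
  · left
    exact ⟨lm (sx p'.1 p'.2), ⟨p', rfl⟩, hj⟩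
  · right
    have hj' : sgf e p = q := hj
    by_cases hy : ∀ m, ∀ k ≤ m, p ≠ yx m k
    · rw [sgf_fix _ _ hy] at hj'
      exact absurd hj' h1
    · push Not at hy
      obtain ⟨m, k, hk, rfl⟩ := hy
      rw [sgf_val _ _ _ hk] at hj'
      exact ⟨m, k, nx e m k, hk, nx_le hk, rfl, hj'.symm⟩

lemma nx_ne {m k : ℕ} (h0 : nx 0 m k = nx 1 m k) (hk : k ≤ m) : nx 0 m k = k := by
  unfold nx at *
  split_ifs at * <;> omega

/-- Moves that move a point are distinguished by their effect. -/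
lemma tx_inj (x : Px) (j j' : Jx) (h : tx j x = tx j' x) (hne : tx j x ≠ x) : j = j' := by
  -- a path move differs from a group move
  have key : ∀ (p : Fin 3 × ZMod 5) (e : Fin 2), tx (Sum.inl p) x = tx (Sum.inr e) x →
      tx (Sum.inl p) x = x := by
    intro p e h
    have h' : lm (sx p.1 p.2) x = sgf e x := h
    show lm (sx p.1 p.2) x = x
    by_cases hy : ∀ m, ∀ k ≤ m, x ≠ yx m k
    · rw [h', sgf_fix _ _ hy]
    · push Not at hy
      obtain ⟨m, k, hk, rfl⟩ := hy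
      rw [sgf_val _ _ _ hk] at h'
      have h2 := sep_x m k hk _ (nx_le hk) (lm (sx p.1 p.2))
        (Set.pow_subset_pow_right one_mem_Tx (show 1 ≤ m + 2 by omega)
          (by rw [pow_one]; exact ⟨p, rfl⟩)) h'
      rw [h', ← h2]
  obtain ⟨m, a⟩ := x
  rcases j with ⟨i, c⟩ | e <;> rcases j' with ⟨i', c'⟩ | e'
  · have h1 : lm (sx i c) ⟨m, a⟩ = lm (sx i' c') ⟨m, a⟩ := h
    rw [lm_apply, lm_apply] at h1
    have h2 := mul_right_cancel (eq_of_heq (Sigma.mk.inj h1).2)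
    have h3 : sh (Nm m) i c = sh (Nm m) i' c' := congrArg Subtype.val h2
    have hc : c ≠ 0 := by
      rintro rfl
      apply hne
      show lm (sx i 0) ⟨m, a⟩ = _
      rw [sx_zero, lm_one]; rfl
    obtain ⟨h4, h5⟩ := sh_inj (Nm m) (by unfold Nm; omega) i i' c c' h3 hc
    rw [h4, h5]
  · exact absurd (key _ _ h) hne
  · rw [h] at hne
    exact absurd (key _ _ h.symm) hne
  · by_cases hee : e = e'
    · rw [hee]
    · exfalso
      have h01 : tx (Sum.inr 0) (⟨m, a⟩ : Px) = tx (Sum.inr 1) ⟨m, a⟩ := by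
        fin_cases e <;> fin_cases e' <;>
          first
            | exact absurd rfl hee
            | exact h
            | exact h.symm
      have h01' : sgf 0 (⟨m, a⟩ : Px) = sgf 1 ⟨m, a⟩ := h01
      by_cases hy : ∀ m', ∀ k ≤ m', (⟨m, a⟩ : Px) ≠ yx m' k
      · apply hne
        exact sgf_fix _ _ hy
      · push Not at hy
        obtain ⟨m', k, hk, hmk⟩ := hy
        rw [hmk, sgf_val _ _ _ hk, sgf_val _ _ _ hk] at h01'
        have h2 := yx_inj (nx_le hk) (nx_le hk) h01'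
        have h3 := nx_ne h2 hk
        apply hne
        show sgf e ⟨m, a⟩ = ⟨m, a⟩
        rw [hmk, sgf_val _ _ _ hk]
        fin_cases e
        · show yx m' (nx 0 m' k) = yx m' k
          rw [h3]
        · show yx m' (nx 1 m' k) = yx m' k
          rw [← h2, h3]

/-- The Laplacian as a bounded operator. -/
noncomputable def Lx : L2 Px →L[ℂ] L2 Px := ∑ j : Jx, (1 - UU (tx j))

lemma edist_tx (j : Jx) (x : Px) : BX.graph.edist x (tx j x) ≤ 1 := by
  by_cases h : x = tx j x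
  · rw [← h, SimpleGraph.edist_self]; simp
  · have : BX.graph.Adj x (tx j x) := (BX_adj _ _).mpr ⟨h, j, rfl⟩
    exact (SimpleGraph.edist_eq_one_iff_adj.mpr this).le

lemma PropLE_UU {τ : Equiv.Perm Px} (h : ∀ x, BX.graph.edist x (τ x) ≤ 1) :
    PropLE BX.graph (UU τ) 2 := fun x y hxy => by
  classical
  rw [UU_dl, dl_inner, if_neg]
  rintro rfl
  exact absurd (le_trans hxy (h x)) (by norm_num)

lemma PropLE_one : PropLE BX.graph (1 : L2 Px →L[ℂ] L2 Px) 2 := by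
  have := (PropLE.one_smul (Gr := BX.graph) 1).mono (show 1 ≤ 2 by norm_num)
  rwa [_root_.one_smul] at this

lemma PropLE_Lx : PropLE BX.graph Lx 2 :=
  PropLE.sum _ fun j => PropLE_one.sub (PropLE_UU (edist_tx j))

lemma PropLE_MM (A : Set Px) : PropLE BX.graph (MM A) 1 := fun x y hxy => by
  classical
  rw [MM_dl]
  have hne : y ≠ x := by
    rintro rfl
    rw [SimpleGraph.edist_self] at hxy
    exact absurd hxy (by simp)
  split_ifs
  · rw [dl_inner, if_neg hne]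
  · rw [inner_zero_right]

/-- The Laplacian in the algebraic Roe algebra. -/
noncomputable def Dx : BX.algRoe := ⟨Lx, 2, PropLE_Lx⟩

lemma Lx_apply (v : L2 Px) (z : Px) : (Lx v) z = ∑ j : Jx, (v z - v (tx j z)) := by
  have h1 : (Lx v) z = ∑ j : Jx, (v z - v ((tx j)⁻¹ z)) := by
    rw [← inner_dl, Lx, sum_apply, inner_sum]
    apply Finset.sum_congr rfl
    intro j _
    rw [inner_dl, sub_apply, lp.coeFn_sub, Pi.sub_apply, UU_apply]
    rfl
  rw [h1, ← Equiv.sum_comp jinv]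
  apply Finset.sum_congr rfl
  intro j _
  rw [tx_jinv, inv_inv]

lemma Dx_isLaplacian : BX.IsLaplacian' Dx := by
  intro v x
  show (Lx v) x = _
  rw [Lx_apply]
  classical
  set J0 : Finset Jx := Finset.univ.filter fun j => tx j x ≠ x with hJ0
  have h1 : BX.graph.neighborSet x = (fun j : Jx => tx j x) '' (J0 : Set Jx) := by
    ext y
    rw [SimpleGraph.mem_neighborSet, BX_adj]
    constructor
    · rintro ⟨h1, j, hj⟩
      refine ⟨j, ?_, hj⟩
      rw [hJ0, Finset.coe_filter]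
      refine ⟨Finset.mem_univ j, ?_⟩
      rw [hj]; exact h1.symm
    · rintro ⟨j, hj, rfl⟩
      rw [hJ0, Finset.coe_filter] at hj
      exact ⟨hj.2.symm, j, rfl⟩
  rw [h1, finsum_mem_image, finsum_mem_coe_finset]
  · rw [hJ0, Finset.sum_filter]
    apply Finset.sum_congr rfl
    intro j _
    split_ifs with h
    · rfl
    · push Not at h
      rw [h, sub_self]
  · intro j hj j' hj' h
    rw [hJ0, Finset.coe_filter] at hj
    exact tx_inj x j j' h hj.2

lemma star_Lx : star Lx = Lx := by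
  rw [Lx, star_sum, ← Equiv.sum_comp jinv]
  apply Finset.sum_congr rfl
  intro j _
  rw [star_sub, star_one, star_UU, tx_jinv, inv_inv]

lemma isLap_Lx : Geo.IsLap gx Lx (fun p : Fin 3 × ZMod 5 => lm (sx p.1 p.2)) := by
  refine ⟨fun p => ⟨p, rfl⟩, ?_⟩
  intro v z
  rw [Lx_apply, Fintype.sum_sum_type, Fin.sum_univ_two, ← add_assoc]
  rfl

lemma Lx_one (m : ℕ) : Lx (gx.onev m) = 0 := by
  classical
  apply vec_ext
  intro z
  rw [Lx_apply]
  apply Finset.sum_eq_zero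
  intro j _
  have h1 : (z ∈ (gx.fin m).toFinset) ↔ (tx j z ∈ (gx.fin m).toFinset) := by
    rw [Set.Finite.mem_toFinset, Set.Finite.mem_toFinset]
    show z.1 = m ↔ (tx j z).1 = m
    rw [tx_fst]
  rw [Geo.onev, vec_apply, vec_apply]
  by_cases h : z ∈ (gx.fin m).toFinset
  · rw [if_pos h, if_pos (h1.mp h), sub_self]
  · rw [if_neg h, if_neg (fun h' => h (h1.mpr h')), sub_self]

/-- No positive `c` works. -/
theorem not_sos {c : ℝ} (hc : 0 < c) : ¬ BX.IsSOS' (Dx * Dx - (c : ℂ) • Dx) := by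
  rintro ⟨n, ξ, hξ⟩
  choose R hR using fun k => (ξ k).2
  set R0 : ℕ := 2 + ∑ k, R k with hR0
  obtain ⟨m1, hm1⟩ := exists_nat_gt (2 / c)
  set m : ℕ := 6 * R0 + m1 with hm
  have h1 : ∀ k, PropLE BX.graph (ξ k : L2 Px →L[ℂ] L2 Px) R0 := by
    intro k
    have h2 : PropLE BX.graph (ξ k : L2 Px →L[ℂ] L2 Px) (R k) := hR k
    apply h2.mono
    have := Finset.single_le_sum (f := R) (fun i _ => Nat.zero_le _) (Finset.mem_univ k)
    omega
  have h2 := gx.no_sos (m := m) (R := R0) (by omega) (by omega) BX_compat isLap_Lx PropLE_Lx star_Lx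
    (Lx_one m) (c := c) (n := n) (ξ := fun k => (ξ k : L2 Px →L[ℂ] L2 Px)) h1 (by
      have e1 : ((Dx * Dx - (c : ℂ) • Dx : BX.algRoe) : L2 Px →L[ℂ] L2 Px)
          = Lx * Lx - (c : ℂ) • Lx := rfl
      have e2 : ((∑ k, star (ξ k) * ξ k : BX.algRoe) : L2 Px →L[ℂ] L2 Px)
          = ∑ k, star (ξ k : L2 Px →L[ℂ] L2 Px) * (ξ k : L2 Px →L[ℂ] L2 Px) := by
        rw [AddSubmonoidClass.coe_finset_sum]
        rfl
      rw [← e1, hξ, e2])
  rw [div_lt_iff₀ hc] at hm1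
  have h3 : (m1 : ℝ) ≤ m := by exact_mod_cast (by omega : m1 ≤ m)
  nlinarith

end Pool.Agent.H494R3.GT
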