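import Pool.Agent.H494R3.GT.Ops

set_option autoImplicit false
set_option linter.style.haveILetI false
set_option linter.unusedVariables false

namespace Pool.Agent.H494R3.GT

open scoped Pointwise

variable {P : Type}

/-- propagation bound -/
def PropLE (Gr : SimpleGraph P) (T : L2 P →L[ℂ] L2 P) (R : ℕ) : Prop :=
  ∀ x y, (R : ℕ∞) ≤ Gr.edist x y → inner ℂ (dl y) (T (dl x)) = (0 : ℂ)

lemma apply_eq_inner (T : L2 P →L[ℂ] L2 P) (v : L2 P) (z : P) :
    (T v) z = inner ℂ ((star T : L2 P →L[ℂ] L2 P) (dl z)) v := by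
  rw [← inner_dl, ContinuousLinearMap.star_eq_adjoint, ContinuousLinearMap.adjoint_inner_left]

lemma local_eq {Gr : SimpleGraph P} {T : L2 P →L[ℂ] L2 P} {R : ℕ} (h : PropLE Gr T R)
    {v w : L2 P} {z : P} (hvw : ∀ x, Gr.edist x z < R → v x = w x) : (T v) z = (T w) z := by
  rw [apply_eq_inner, apply_eq_inner, ← sub_eq_zero, ← inner_sub_right, lp.inner_eq_tsum]
  have : ∀ x, inner ℂ (((star T : L2 P →L[ℂ] L2 P) (dl z)) x) ((v - w : L2 P) x) = (0 : ℂ) := by
    intro x
    by_cases hx : Gr.edist x z < R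
    · have : (v - w : L2 P) x = 0 := by
        rw [lp.coeFn_sub, Pi.sub_apply, hvw x hx, sub_self]
      rw [this, inner_zero_right]
    · have h1 := h x z (not_lt.mp hx)
      have : ((star T : L2 P →L[ℂ] L2 P) (dl z)) x = 0 := by
        rw [← inner_dl, ContinuousLinearMap.star_eq_adjoint,
          ContinuousLinearMap.adjoint_inner_right, ← inner_conj_symm, h1, map_zero]
      rw [this, inner_zero_left]
  simp only [this, tsum_zero]

/-- finitely supported vectors -/
noncomputable def vec (s : Finset P) (f : P → ℂ) : L2 P := ∑ x ∈ s, f x • dl x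

open scoped Classical in
lemma vec_apply (s : Finset P) (f : P → ℂ) (x : P) : (vec s f) x = if x ∈ s then f x else 0 := by
  rw [← inner_dl, vec, inner_sum]
  simp only [inner_smul_right, dl_inner]
  simp

lemma inner_re_eq (v w : L2 P) : inner ℂ v w = ∑' z, (starRingEnd ℂ (v z)) * w z := by
  rw [lp.inner_eq_tsum]
  congr 1
  ext z
  rw [RCLike.inner_apply, mul_comm]

lemma inner_summable (v w : L2 P) : Summable fun z => (starRingEnd ℂ (v z)) * w z := by
  have := lp.summable_inner (𝕜 := ℂ) v w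
  refine this.congr ?_
  intro z
  rw [RCLike.inner_apply, mul_comm]

/-- positivity of the functional on squares -/
lemma pos_core {Gr : SimpleGraph P} {ξ : L2 P →L[ℂ] L2 P} {R : ℕ} (h : PropLE Gr ξ R)
    {u1 uK uK2 one : L2 P} (h1 : ξ one = 0)
    (hz : ∀ z, (∀ x, Gr.edist x z < R → u1 x = one x) ∨
      (∃ κ : ℝ, ∀ x, Gr.edist x z < R → uK x = (κ : ℂ) * u1 x ∧ uK2 x = (κ : ℂ) ^ 2 * u1 x)) :
    0 ≤ (inner ℂ (ξ uK) (ξ uK) - inner ℂ (ξ u1) (ξ uK2)).re := by
  rw [inner_re_eq, inner_re_eq, ← (inner_summable _ _).tsum_sub (inner_summable _ _),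
    Complex.re_tsum ((inner_summable _ _).sub (inner_summable _ _))]
  apply tsum_nonneg
  intro z
  rcases hz z with hz | ⟨κ, hz⟩
  · have e1 : (ξ u1) z = 0 := by
      rw [local_eq h hz, h1]; rfl
    rw [e1, map_zero, zero_mul, sub_zero, mul_comm, Complex.mul_conj]
    simp only [Complex.ofReal_re]
    exact Complex.normSq_nonneg _
  · have e1 : (ξ uK) z = κ * (ξ u1) z := by
      have : (ξ uK) z = (ξ ((κ : ℂ) • u1)) z := local_eq h fun x hx => by
        rw [(hz x hx).1]; rfl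
      rw [this, map_smul]; rfl
    have e2 : (ξ uK2) z = κ ^ 2 * (ξ u1) z := by
      have : (ξ uK2) z = (ξ (((κ : ℂ) ^ 2) • u1)) z := local_eq h fun x hx => by
        rw [(hz x hx).2]; rfl
      rw [this, map_smul]; rfl
    rw [e1, e2, map_mul, Complex.conj_ofReal]
    have : (κ : ℂ) * (starRingEnd ℂ) ((ξ u1) z) * (κ * (ξ u1) z)
        - (starRingEnd ℂ) ((ξ u1) z) * (κ ^ 2 * (ξ u1) z) = 0 := by ring
    rw [this]; simp

/-- The abstract contradiction. -/
theorem no_sos_core {Gr : SimpleGraph P} {L : L2 P →L[ℂ] L2 P} (hLs : star L = L)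
    {c : ℝ} {n : ℕ} {ξ : Fin n → (L2 P →L[ℂ] L2 P)} {R : ℕ}
    (hξ : ∀ k, PropLE Gr (ξ k) R)
    (hsos : L * L - (c : ℂ) • L = ∑ k, star (ξ k) * ξ k)
    {u1 uK uK2 one : L2 P} (h1 : L one = 0)
    (hz : ∀ z, (∀ x, Gr.edist x z < R → u1 x = one x) ∨
      (∃ κ : ℝ, ∀ x, Gr.edist x z < R → uK x = (κ : ℂ) * u1 x ∧ uK2 x = (κ : ℂ) ^ 2 * u1 x)) :
    0 ≤ ((inner ℂ (L uK) (L uK) - inner ℂ (L u1) (L uK2))
      - c * (inner ℂ (L uK) uK - inner ℂ (L u1) uK2)).re := by
  have hadj : ∀ (T : L2 P →L[ℂ] L2 P) (v w : L2 P), inner ℂ v ((star T * T) w)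
      = inner ℂ (T v) (T w) := by
    intro T v w
    rw [mul_ap, ContinuousLinearMap.star_eq_adjoint, ContinuousLinearMap.adjoint_inner_right]
  have hLadj : ∀ v w : L2 P, inner ℂ v (L w) = inner ℂ (L v) w := by
    intro v w
    conv_lhs => rw [← hLs]
    rw [ContinuousLinearMap.star_eq_adjoint, ContinuousLinearMap.adjoint_inner_right]
  have hexp : ∀ v w : L2 P, inner ℂ (L v) (L w) - c * inner ℂ (L v) w
      = ∑ k, inner ℂ (ξ k v) (ξ k w) := by
    intro v w
    have e1 := congrArg (fun T : L2 P →L[ℂ] L2 P => inner ℂ v (T w)) hsos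
    simp only [sub_apply, inner_sub_right, sum_apply, inner_sum, hadj] at e1
    have e2 : inner ℂ v ((L * L) w) = inner ℂ (L v) (L w) := by rw [mul_ap, hLadj]
    have e3 : inner ℂ v (((c : ℂ) • L) w) = c * inner ℂ (L v) w := by
      rw [show ((c : ℂ) • L) w = (c : ℂ) • L w from rfl, inner_smul_right, hLadj]
    rw [← e1, e2, e3]
  have hone : ∀ k, ξ k one = 0 := by
    have h2 := hexp one one
    rw [h1] at h2
    simp only [inner_zero_left, mul_zero, sub_zero] at h2
    have h3 : ∑ k, ‖ξ k one‖ ^ 2 = 0 := by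
      have : ((∑ k, ‖ξ k one‖ ^ 2 : ℝ) : ℂ) = 0 := by
        rw [h2]
        push_cast
        apply Finset.sum_congr rfl
        intro k _
        rw [inner_self_eq_norm_sq_to_K]; rfl
      exact_mod_cast this
    rw [Finset.sum_eq_zero_iff_of_nonneg (fun k _ => by positivity)] at h3
    intro k
    have := h3 k (Finset.mem_univ k)
    simpa using this
  have e : (inner ℂ (L uK) (L uK) - inner ℂ (L u1) (L uK2))
      - c * (inner ℂ (L uK) uK - inner ℂ (L u1) uK2)
      = ∑ k, (inner ℂ (ξ k uK) (ξ k uK) - inner ℂ (ξ k u1) (ξ k uK2)) := by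
    rw [Finset.sum_sub_distrib, ← hexp, ← hexp]
    ring
  rw [e, Complex.re_sum]
  apply Finset.sum_nonneg
  intro k _
  exact pos_core (hξ k) (hone k) hz

end Pool.Agent.H494R3.GT
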