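import Mathlib

set_option autoImplicit false
set_option linter.style.haveILetI false
set_option linter.unusedVariables false

namespace Pool.Agent.H494R3.GT

open InnerProductSpace

/-- `ℓ²(P)` -/
abbrev L2 (P : Type) : Type := lp (fun _ : P => ℂ) 2

variable {P : Type}

open scoped Classical in
/-- basis vectors -/
noncomputable def dl (x : P) : L2 P := lp.single 2 x (1 : ℂ)

lemma inner_dl (x : P) (v : L2 P) : inner ℂ (dl x) v = v x := by
  classical
  rw [dl, lp.inner_single_left]
  simp

lemma dl_apply_self (x : P) : (dl x : L2 P) x = 1 := by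
  classical
  simp [dl, lp.single_apply]

lemma dl_apply_ne {x y : P} (h : y ≠ x) : (dl x : L2 P) y = 0 := by
  classical
  simp [dl, lp.single_apply, h]

lemma dl_inner (x y : P) [Decidable (x = y)] :
    inner ℂ (dl x) (dl y) = if x = y then (1 : ℂ) else 0 := by
  rw [inner_dl]
  by_cases h : x = y
  · subst h; simp [dl_apply_self]
  · simp [h, dl_apply_ne h]

lemma vec_ext {v w : L2 P} (h : ∀ x, v x = w x) : v = w := by
  ext x; exact h x

lemma op_ext_inner {T S : L2 P →L[ℂ] L2 P}
    (h : ∀ x y, inner ℂ (dl x) (T (dl y)) = inner ℂ (dl x) (S (dl y))) : T = S := by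
  have h2 : ∀ n, T (dl n) = S (dl n) := by
    intro n
    apply vec_ext
    intro m
    rw [← inner_dl, ← inner_dl, h]
  have h3 : star T = star S := by
    ext1 y
    apply vec_ext
    intro m
    rw [← inner_dl, ← inner_dl, ContinuousLinearMap.star_eq_adjoint,
      ContinuousLinearMap.star_eq_adjoint, ContinuousLinearMap.adjoint_inner_right,
      ContinuousLinearMap.adjoint_inner_right, h2]
  exact star_injective h3

lemma op_ext {T S : L2 P →L[ℂ] L2 P} (h : ∀ x, T (dl x) = S (dl x)) : T = S :=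
  op_ext_inner fun x y => by rw [h]

lemma dl_orthonormal {Q : Type} {f : P → Q} (hf : Function.Injective f) :
    Orthonormal ℂ (fun n => (dl (f n) : L2 Q)) := by
  classical
  rw [orthonormal_iff_ite]
  intro i j
  rw [dl_inner]
  by_cases h : i = j
  · subst h; simp
  · have : f i ≠ f j := fun h2 => h (hf h2)
    simp [h, this]

lemma mul_ap (S T : L2 P →L[ℂ] L2 P) (v : L2 P) : (S * T) v = S (T v) := rfl

/-- permutation operators -/
noncomputable def UU (τ : Equiv.Perm P) : L2 P →L[ℂ] L2 P :=
  ((dl_orthonormal τ.injective).orthogonalFamily.linearIsometry).toContinuousLinearMap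

lemma UU_dl (τ : Equiv.Perm P) (x : P) : UU τ (dl x) = dl (τ x) := by
  classical
  have := (dl_orthonormal τ.injective).orthogonalFamily.linearIsometry_apply_single
      (i := x) (1 : ℂ)
  simp only [UU, dl]
  simp

lemma UU_one : UU (1 : Equiv.Perm P) = 1 := op_ext fun x => by rw [UU_dl]; rfl

lemma UU_mul (τ σ : Equiv.Perm P) : UU τ * UU σ = UU (τ * σ) := op_ext fun x => by
  rw [UU_dl, mul_ap, UU_dl, UU_dl]; rfl

lemma star_UU (τ : Equiv.Perm P) : star (UU τ) = UU τ⁻¹ := op_ext_inner fun x y => by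
  classical
  rw [ContinuousLinearMap.star_eq_adjoint, ContinuousLinearMap.adjoint_inner_right, UU_dl, UU_dl,
    dl_inner, dl_inner]
  have : τ x = y ↔ x = τ⁻¹ y := by rw [Equiv.Perm.eq_inv_iff_eq]
  simp [this]

lemma UU_apply (τ : Equiv.Perm P) (v : L2 P) (x : P) : UU τ v x = v (τ⁻¹ x) := by
  rw [← inner_dl, ← star_star (UU τ), star_UU, ContinuousLinearMap.star_eq_adjoint,
    ContinuousLinearMap.adjoint_inner_right, UU_dl, inner_dl]

/-- indicator projections -/
noncomputable def MM (A : Set P) : L2 P →L[ℂ] L2 P :=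
  ((Submodule.span ℂ (dl '' A)).topologicalClosure).starProjection

lemma MM_dl_mem {A : Set P} {x : P} (h : x ∈ A) : MM A (dl x) = dl x := by
  unfold MM
  rw [Submodule.starProjection_eq_self_iff]
  exact Submodule.le_topologicalClosure _ (Submodule.subset_span ⟨x, h, rfl⟩)

lemma MM_dl_notMem {A : Set P} {x : P} (h : x ∉ A) : MM A (dl x) = 0 := by
  classical
  unfold MM
  rw [Submodule.starProjection_apply_eq_zero_iff, Submodule.mem_orthogonal]
  have h1 : (Submodule.span ℂ (dl '' A)).topologicalClosure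
      ≤ (ℂ ∙ (dl x : L2 P))ᗮ := by
    apply Submodule.topologicalClosure_minimal
    · rw [Submodule.span_le]
      rintro _ ⟨y, hy, rfl⟩
      rw [SetLike.mem_coe, Submodule.mem_orthogonal_singleton_iff_inner_right, dl_inner]
      have : x ≠ y := fun h2 => h (h2 ▸ hy)
      simp [this]
    · exact Submodule.isClosed_orthogonal _
  intro u hu
  have := h1 hu
  rw [Submodule.mem_orthogonal_singleton_iff_inner_right] at this
  rw [← inner_conj_symm, this]; simp

open scoped Classical in
lemma MM_dl (A : Set P) (x : P) : MM A (dl x) = if x ∈ A then dl x else 0 := by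
  split_ifs with h
  · exact MM_dl_mem h
  · exact MM_dl_notMem h

lemma star_MM (A : Set P) : star (MM A) = MM A := op_ext_inner fun x y => by
  classical
  rw [ContinuousLinearMap.star_eq_adjoint, ContinuousLinearMap.adjoint_inner_right, MM_dl, MM_dl]
  by_cases h : x = y
  · subst h
    by_cases h2 : x ∈ A <;> simp [h2, dl_inner]
  · by_cases h2 : x ∈ A <;> by_cases h3 : y ∈ A <;> simp [h2, h3, dl_inner, h]

lemma MM_mul_self (A : Set P) : MM A * MM A = MM A := op_ext fun x => by
  classical
  rw [mul_ap]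
  by_cases h : x ∈ A <;> simp [MM_dl, h]

lemma MM_univ : MM (Set.univ : Set P) = 1 := op_ext fun x => by
  rw [MM_dl_mem (Set.mem_univ x)]; rfl

lemma MM_biUnion {ι : Type*} (s : Finset ι) (A : ι → Set P)
    (hd : ∀ i ∈ s, ∀ j ∈ s, i ≠ j → Disjoint (A i) (A j)) :
    MM (⋃ i ∈ s, A i) = ∑ i ∈ s, MM (A i) := op_ext fun x => by
  classical
  rw [sum_apply]
  by_cases h : x ∈ ⋃ i ∈ s, A i
  · rw [MM_dl_mem h]
    simp only [Set.mem_iUnion] at h
    obtain ⟨i, hi, hx⟩ := h
    rw [Finset.sum_eq_single i, MM_dl_mem hx]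
    · intro j hj hji
      apply MM_dl_notMem
      intro hxj
      exact Set.disjoint_left.mp (hd i hi j hj hji.symm) hx hxj
    · intro h; exact absurd hi h
  · rw [MM_dl_notMem h]
    symm
    apply Finset.sum_eq_zero
    intro i hi
    apply MM_dl_notMem
    intro hx
    exact h (Set.mem_biUnion hi hx)

lemma MM_union {A B : Set P} (hd : Disjoint A B) : MM (A ∪ B) = MM A + MM B :=
  op_ext fun x => by
  classical
  rw [add_apply]
  by_cases h1 : x ∈ A
  · have h2 : x ∉ B := Set.disjoint_left.mp hd h1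
    simp [MM_dl, h1, h2]
  · by_cases h2 : x ∈ B <;> simp [MM_dl, h1, h2]

lemma UU_MM (τ : Equiv.Perm P) (A : Set P) : UU τ * MM A = MM (τ '' A) * UU τ :=
  op_ext fun x => by
  classical
  rw [mul_ap, mul_ap, UU_dl]
  by_cases h : x ∈ A
  · rw [MM_dl_mem h, UU_dl, MM_dl_mem (Set.mem_image_of_mem τ h)]
  · have h2 : τ x ∉ τ '' A := by
      rintro ⟨y, hy, hxy⟩
      exact h (τ.injective hxy ▸ hy)
    rw [MM_dl_notMem h, MM_dl_notMem h2, map_zero]

lemma UU_MM_singleton {τ σ : Equiv.Perm P} {x : P} (h : τ x = σ x) :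
    UU τ * MM {x} = UU σ * MM {x} := op_ext fun y => by
  classical
  rw [mul_ap, mul_ap]
  by_cases hy : y = x
  · subst hy
    rw [MM_dl_mem (Set.mem_singleton y), UU_dl, UU_dl, h]
  · rw [MM_dl_notMem (by simpa using hy), map_zero, map_zero]

lemma UU_MM_fix {τ : Equiv.Perm P} {A : Set P} (h : ∀ x ∈ A, τ x = x) :
    UU τ * MM A = MM A := op_ext fun y => by
  classical
  rw [mul_ap]
  by_cases hy : y ∈ A
  · rw [MM_dl_mem hy, UU_dl, h y hy]
  · rw [MM_dl_notMem hy, map_zero]

end Pool.Agent.H494R3.GT
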