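import Pool.Agent.H494R3.GT.NoSOS

set_option autoImplicit false
set_option linter.style.haveILetI false
set_option linter.unusedVariables false

namespace Pool.Agent.H494R3.GT

section prop
variable {P : Type} {Gr : SimpleGraph P}

lemma PropLE.mono {T : L2 P →L[ℂ] L2 P} {R S : ℕ} (h : PropLE Gr T R) (hRS : R ≤ S) :
    PropLE Gr T S := fun x y hxy => h x y (le_trans (by exact_mod_cast hRS) hxy)

lemma PropLE.add {T S : L2 P →L[ℂ] L2 P} {R : ℕ} (h : PropLE Gr T R) (h' : PropLE Gr S R) :
    PropLE Gr (T + S) R := fun x y hxy => by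
  rw [add_apply, inner_add_right, h x y hxy, h' x y hxy, add_zero]

lemma PropLE.sub {T S : L2 P →L[ℂ] L2 P} {R : ℕ} (h : PropLE Gr T R) (h' : PropLE Gr S R) :
    PropLE Gr (T - S) R := fun x y hxy => by
  rw [sub_apply, inner_sub_right, h x y hxy, h' x y hxy, sub_zero]

lemma PropLE.sum {ι : Type*} (s : Finset ι) {T : ι → (L2 P →L[ℂ] L2 P)} {R : ℕ}
    (h : ∀ i, PropLE Gr (T i) R) : PropLE Gr (∑ i ∈ s, T i) R := fun x y hxy => by
  rw [sum_apply, inner_sum]
  exact Finset.sum_eq_zero fun i _ => h i x y hxy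

lemma PropLE.star {T : L2 P →L[ℂ] L2 P} {R : ℕ} (h : PropLE Gr T R) : PropLE Gr (star T) R :=
  fun x y hxy => by
  rw [ContinuousLinearMap.star_eq_adjoint, ContinuousLinearMap.adjoint_inner_right,
    ← inner_conj_symm, h y x (by rwa [SimpleGraph.edist_comm]), map_zero]

lemma PropLE.mul {T S : L2 P →L[ℂ] L2 P} {R R' : ℕ} (h : PropLE Gr T R) (h' : PropLE Gr S R') :
    PropLE Gr (T * S) (R + R') := fun x y hxy => by
  rw [mul_ap, inner_dl, apply_eq_inner, lp.inner_eq_tsum]
  have : ∀ z, inner ℂ (((Star.star T : L2 P →L[ℂ] L2 P) (dl y)) z) ((S (dl x)) z) = (0 : ℂ) := by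
    intro z
    by_cases hx : (R' : ℕ∞) ≤ Gr.edist x z
    · have : (S (dl x)) z = 0 := by rw [← inner_dl]; exact h' x z hx
      rw [this, inner_zero_right]
    · have h1 : (R : ℕ∞) ≤ Gr.edist z y := by
        by_contra hlt
        push Not at hlt hx
        have h2 : Gr.edist x y < (R' : ℕ∞) + R :=
          lt_of_le_of_lt (SimpleGraph.edist_triangle) (ENat.add_lt_add hx hlt)
        have h3 : ((R + R' : ℕ) : ℕ∞) = (R' : ℕ∞) + R := by push_cast; rw [add_comm]
        rw [h3] at hxy
        exact absurd hxy (not_le.mpr h2)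
      have : ((Star.star T : L2 P →L[ℂ] L2 P) (dl y)) z = 0 := by
        rw [← inner_dl, ContinuousLinearMap.star_eq_adjoint,
          ContinuousLinearMap.adjoint_inner_right, ← inner_conj_symm, h z y h1, map_zero]
      rw [this, inner_zero_left]
  simp only [this, tsum_zero]

lemma PropLE.one_smul (c : ℂ) : PropLE Gr (c • (1 : L2 P →L[ℂ] L2 P)) 1 := fun x y hxy => by
  classical
  have hne : y ≠ x := by
    rintro rfl
    rw [SimpleGraph.edist_self] at hxy
    exact absurd hxy (by simp)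
  rw [show (c • (1 : L2 P →L[ℂ] L2 P)) (dl x) = c • dl x from rfl, inner_smul_right, dl_inner,
    if_neg hne, mul_zero]

end prop

end Pool.Agent.H494R3.GT
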