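import Pool.Agent.H494R3.GT.Model
import Pool.Agent.H494R3.GT.Kaz
import Pool.Agent.H494R3.GT.Heis

set_option autoImplicit false
set_option linter.style.haveILetI false
set_option linter.unusedVariables false

namespace Pool.Agent.H494R3.GT

open scoped Pointwise CStarAlgebra ComplexOrder

/-- permutations implemented in the algebraic Roe algebra -/
noncomputable def okS : Subgroup (Equiv.Perm Px) where
  carrier := {τ | UU τ ∈ BX.algRoe}
  one_mem' := by
    show UU 1 ∈ BX.algRoe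
    rw [UU_one]; exact one_mem _
  mul_mem' := by
    intro τ σ h h'
    show UU (τ * σ) ∈ BX.algRoe
    rw [← UU_mul]; exact mul_mem h h'
  inv_mem' := by
    intro τ h
    show UU τ⁻¹ ∈ BX.algRoe
    rw [← star_UU]; exact star_mem h

lemma tx_ok (j : Jx) : tx j ∈ okS := ⟨2, PropLE_UU (edist_tx j)⟩

lemma closure_ok : Subgroup.closure Tx ≤ okS := by
  rw [Subgroup.closure_le]
  rintro _ ⟨p, rfl⟩
  exact tx_ok (Sum.inl p)

lemma MM_ok (A : Set Px) : MM A ∈ BX.algRoe := ⟨1, PropLE_MM A⟩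

section rep
variable {B : Type} [CStarAlgebra B] (π : BX.algRoe →⋆ₐ[ℂ] B)

/-- the induced unitary representation -/
noncomputable def WW : okS →* B where
  toFun τ := π ⟨UU τ.1, τ.2⟩
  map_one' := by
    have : (⟨UU (1 : okS).1, (1 : okS).2⟩ : BX.algRoe) = 1 := Subtype.ext UU_one
    rw [this, map_one]
  map_mul' τ σ := by
    rw [← map_mul]
    congr 1
    exact Subtype.ext (UU_mul τ.1 σ.1).symm

lemma WW_star (τ : okS) : star (WW π τ) = WW π τ⁻¹ := by
  show star (π ⟨UU τ.1, τ.2⟩) = π ⟨UU (τ⁻¹ : okS).1, (τ⁻¹ : okS).2⟩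
  rw [← map_star]
  congr 1
  exact Subtype.ext (star_UU τ.1)

lemma lm_sx_mem (i : Fin 3) (a : ZMod 5) : lm (sx i a) ∈ Subgroup.closure Tx :=
  Subgroup.subset_closure ⟨(i, a), rfl⟩

lemma lm_zx_mem (i : Fin 3) (a : ZMod 5) : lm (zx i a) ∈ Subgroup.closure Tx := by
  have h : zx i a = sx i a * sx (i + 1) 1 * (sx (i + 1) 1 * sx i a)⁻¹ := by
    rw [relx, mul_one]; group
  rw [h, lm_mul, lm_mul, lm_inv, lm_mul]
  exact mul_mem (mul_mem (lm_sx_mem _ _) (lm_sx_mem _ _))
    (inv_mem (mul_mem (lm_sx_mem _ _) (lm_sx_mem _ _)))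

/-- generators in `okS` -/
noncomputable def sL (i : Fin 3) (a : ZMod 5) : okS := ⟨lm (sx i a), closure_ok (lm_sx_mem i a)⟩
noncomputable def zL (i : Fin 3) (a : ZMod 5) : okS := ⟨lm (zx i a), closure_ok (lm_zx_mem i a)⟩

lemma sL_isRep (i : Fin 3) : IsRep (fun a => WW π (sL i a)) where
  zero := by
    have : sL i 0 = 1 := Subtype.ext (by show lm (sx i 0) = 1; rw [sx_zero, lm_one])
    simp only [this, map_one]
  add a b := by
    rw [← map_mul]
    congr 1
    exact Subtype.ext (by show lm (sx i (a + b)) = lm _ * lm _; rw [sx_add, lm_mul])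
  st a := by
    rw [WW_star]
    congr 1
    exact Subtype.ext (by show (lm (sx i a))⁻¹ = lm _; rw [sx_neg, lm_inv])

lemma zL_isRep (i : Fin 3) : IsRep (fun a => WW π (zL i a)) where
  zero := by
    have : zL i 0 = 1 := Subtype.ext (by show lm (zx i 0) = 1; rw [zx_zero, lm_one])
    simp only [this, map_one]
  add a b := by
    rw [← map_mul]
    congr 1
    exact Subtype.ext (by show lm (zx i (a + b)) = lm _ * lm _; rw [zx_add, lm_mul])
  st a := by
    rw [WW_star]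
    congr 1
    exact Subtype.ext (by show (lm (zx i a))⁻¹ = lm _; rw [zx_neg, lm_inv])

lemma isHeis (i : Fin 3) : IsHeis (fun a => WW π (sL i a)) (fun a => WW π (sL (i + 1) a))
    (fun a => WW π (zL i a)) where
  hu := sL_isRep π i
  hv := sL_isRep π (i + 1)
  hz := zL_isRep π i
  rel a b := by
    rw [← map_mul, ← map_mul, ← map_mul]
    congr 1
    exact Subtype.ext (by
      show lm (sx i a) * lm (sx (i + 1) b) = lm (zx i (a * b)) * (lm (sx (i + 1) b) * lm (sx i a))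
      rw [← lm_mul, ← lm_mul, ← lm_mul, relx])
  zu a b := by
    rw [← map_mul, ← map_mul]
    congr 1
    exact Subtype.ext (by
      show lm (zx i a) * lm (sx i b) = lm (sx i b) * lm (zx i a)
      rw [← lm_mul, ← lm_mul, zrelx])
  zv a b := by
    rw [← map_mul, ← map_mul]
    congr 1
    exact Subtype.ext (by
      show lm (zx i a) * lm (sx (i + 1) b) = lm (sx (i + 1) b) * lm (zx i a)
      rw [← lm_mul, ← lm_mul, zrelx'])

end rep

/-- transitivity on blocks -/
lemma trans_closure (m : ℕ) (g : Vx m) :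
    ∃ τ ∈ Subgroup.closure Tx, ∀ x : Vx m, τ ⟨m, x⟩ = ⟨m, g * x⟩ := by
  obtain ⟨g, hg⟩ := g
  induction hg using Subgroup.closure_induction with
  | mem g hg =>
    obtain ⟨p, rfl⟩ := hg
    exact ⟨lm (sx p.1 p.2), lm_sx_mem _ _, fun x => rfl⟩
  | one => exact ⟨1, one_mem _, fun x => by
      have : (⟨1, one_mem _⟩ : Vx m) = 1 := rfl
      rw [this, one_mul]; rfl⟩
  | mul a b ha hb iha ihb =>
    obtain ⟨τ, hτ, hτx⟩ := iha
    obtain ⟨σ, hσ, hσx⟩ := ihb
    refine ⟨τ * σ, mul_mem hτ hσ, fun x => ?_⟩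
    rw [Equiv.Perm.mul_apply, hσx, hτx, ← mul_assoc]
    rfl
  | inv a ha iha =>
    obtain ⟨τ, hτ, hτx⟩ := iha
    refine ⟨τ⁻¹, inv_mem hτ, fun x => ?_⟩
    rw [Equiv.Perm.inv_eq_iff_eq, hτx, ← mul_assoc]
    have : (⟨a, ha⟩ : Vx m) * ⟨a⁻¹, inv_mem ha⟩ = 1 := Subtype.ext (mul_inv_cancel a)
    rw [this, one_mul]

lemma trans_x (x y : Px) (h : x.1 = y.1) : ∃ τ ∈ Subgroup.closure Tx, τ x = y := by
  obtain ⟨m, a⟩ := x
  obtain ⟨m', b⟩ := y
  have h' : m = m' := h
  subst h'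
  obtain ⟨τ, hτ, hτx⟩ := trans_closure m (b * a⁻¹)
  exact ⟨τ, hτ, by rw [hτx]; simp⟩

lemma hpow (m : ℕ) (x : Vx m) (i : ℕ) : ((lm hx) ^ i) ⟨m, x⟩ = ⟨m, (hx m) ^ i * x⟩ := by
  induction i with
  | zero => rw [pow_zero, pow_zero, one_mul]; rfl
  | succ i ih => rw [pow_succ', Equiv.Perm.mul_apply, ih, lm_apply, pow_succ', mul_assoc]

lemma hx_mem_pow : lm hx ∈ Tx ^ 3 := by
  have h : ∀ p : Fin 3 × ZMod 5, lm (sx p.1 p.2) ∈ Tx := fun p => ⟨p, rfl⟩
  rw [hx_eq, lm_mul, lm_mul, pow_succ, pow_two]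
  exact Set.mul_mem_mul (Set.mul_mem_mul (h (0, 1)) (h (1, 1))) (h (2, 1))

lemma hx_pow_mem (i : ℕ) : (lm hx) ^ i ∈ Tx ^ (3 * i) := by
  rw [pow_mul]
  exact Set.pow_mem_pow hx_mem_pow

/-- path points -/
def Yx : Set Px := {x | ∃ m k, k ≤ m ∧ x = yx m k}

lemma hsep_aux {K : ℕ} {x y : Px} (hxY : x ∈ Yx) (hyY : y ∈ Yx) (hN : 3 * K ≤ x.1) {i j : ℕ}
    (hj : j < K) (hij : i ≤ j) (h : ((lm hx) ^ i) x = ((lm hx) ^ j) y) : i = j := by
  obtain ⟨m, k, hk, rfl⟩ := hxY
  obtain ⟨m', k', hk', rfl⟩ := hyY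
  have hm : m = m' := by
    have h1 := congrArg Sigma.fst h
    rw [yx, yx, hpow, hpow] at h1
    exact h1
  subst hm
  have hN' : 3 * K ≤ m := hN
  have h1 : ((lm hx) ^ (j - i)) (yx m k') = yx m k := by
    have h2 : (lm hx) ^ j = (lm hx) ^ i * (lm hx) ^ (j - i) := by
      rw [← pow_add]; congr 1; omega
    rw [h2, Equiv.Perm.mul_apply] at h
    exact (((lm hx) ^ i).injective h).symm
  have h2 : k' = k := sep_x m k' hk' k hk _
    (Set.pow_subset_pow_right one_mem_Tx (by omega) (hx_pow_mem (j - i))) h1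
  subst h2
  rw [yx, hpow] at h1
  have h3 := eq_of_heq (Sigma.mk.inj h1).2
  have h4 : (hx m) ^ (j - i) = 1 := by
    have := mul_right_cancel (h3.trans (one_mul _).symm)
    exact this
  have h5 : (hh (Nm m)) ^ (j - i) = 1 := by
    have := congrArg Subtype.val h4
    exact this
  by_contra hne
  exact hh_pow_ne (Nm m) (j - i) (by omega) (by unfold Nm; omega) h5

lemma hsep_x (K : ℕ) : ∃ N : ℕ, ∀ x ∈ Yx, ∀ y ∈ Yx, N ≤ x.1 → N ≤ y.1 → ∀ i < K, ∀ j < K,
    ((lm hx) ^ i) x = ((lm hx) ^ j) y → i = j := by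
  refine ⟨3 * K, ?_⟩
  intro x hx' y hy hNx hNy i hi j hj h
  rcases le_total i j with hij | hij
  · exact hsep_aux hx' hy hNx hj hij h
  · exact (hsep_aux hy hx' hNy hi hij h.symm).symm

section final
variable {B : Type} [CStarAlgebra B] [PartialOrder B] [StarOrderedRing B]

lemma isRep_proj_nonneg {u : ZMod 5 → B} (h : IsRep u) : 0 ≤ 1 - avg u := by
  apply proj_nonneg
  · have : (1 - avg u) * (1 - avg u) = 1 - avg u - avg u + avg u * avg u := by noncomm_ring
    rw [this, h.avg_avg]; abel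
  · rw [star_sub, star_one, h.star_avg]

/-- a projection killed by the sum of `1 - avg` absorbs all generators -/
lemma absorb_gen {w : Fin 3 → ZMod 5 → B} (hw : ∀ i, IsRep (w i)) {P : B} (hPs : star P = P)
    (h : (∑ i, (1 - avg (w i))) * P = 0) (i : Fin 3) (k : ZMod 5) : w i k * P = P := by
  have h1 : ∀ i, star ((1 - avg (w i)) * P) * ((1 - avg (w i)) * P)
      = P * ((1 - avg (w i)) * P) := by
    intro i
    have : (1 - avg (w i)) * (1 - avg (w i)) = 1 - avg (w i) := by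
      have : (1 - avg (w i)) * (1 - avg (w i))
          = 1 - avg (w i) - avg (w i) + avg (w i) * avg (w i) := by noncomm_ring
      rw [this, (hw i).avg_avg]; abel
    rw [star_mul, hPs, star_sub, star_one, (hw i).star_avg, mul_assoc, ← mul_assoc (1 - avg (w i)),
      this]
  have h2 : ∑ i, star ((1 - avg (w i)) * P) * ((1 - avg (w i)) * P) = 0 := by
    simp only [h1]
    rw [← Finset.mul_sum, ← Finset.sum_mul, h, mul_zero]
  have h3 := (Finset.sum_eq_zero_iff_of_nonneg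
    (fun i _ => star_mul_self_nonneg ((1 - avg (w i)) * P))).mp h2 i (Finset.mem_univ i)
  have h4 : (1 - avg (w i)) * P = 0 := CStarRing.star_mul_self_eq_zero_iff _ |>.mp h3
  have h5 : avg (w i) * P = P := by
    rw [sub_mul, one_mul, sub_eq_zero] at h4
    exact h4.symm
  calc w i k * P = w i k * (avg (w i) * P) := by rw [h5]
    _ = P := by rw [← mul_assoc, (hw i).mul_avg, h5]

lemma invol_nonneg {s : B} (h1 : s * s = 1) (h2 : star s = s) : 0 ≤ 1 - s := by
  have h3 : 0 ≤ star (1 - s) * (1 - s) := star_mul_self_nonneg _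
  have h4 : star (1 - s) * (1 - s) = (2 : ℝ) • (1 - s) := by
    rw [star_sub, star_one, h2]
    have : (1 - s) * (1 - s) = 1 - s - s + s * s := by noncomm_ring
    rw [this, h1]
    module
  rw [h4] at h3
  have h5 : 1 - s = (1 / 2 : ℝ) • ((2 : ℝ) • (1 - s)) := by
    rw [smul_smul]; norm_num
  rw [h5]
  exact smul_nonneg (by norm_num) h3

end final

lemma five_avg {B : Type} [CStarAlgebra B] {u : ZMod 5 → B} :
    ∑ k, (1 - u k) = (5 : ℂ) • (1 - avg u) := by
  rw [Finset.sum_sub_distrib, smul_sub, avg, smul_smul, Finset.sum_const, Finset.card_univ,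
    ZMod.card, ← Nat.cast_smul_eq_nsmul ℂ]
  congr 1
  · push_cast
    rw [show (5 : ℂ) * (1 / 5) = 1 by norm_num, one_smul]

theorem geomT : BX.GeometricT' Dx := by
  have hc0 : 0 < 5 * (1 - 2 * ep) := by linarith [ep_lt]
  refine ⟨5 * (1 - 2 * ep), hc0, ?_⟩
  intro B _ π
  letI : PartialOrder B := CStarAlgebra.spectralOrder B
  haveI : StarOrderedRing B := CStarAlgebra.spectralOrderedRing B
  set w : Fin 3 → ZMod 5 → B := fun i a => WW π (sL i a) with hw
  have hrep : ∀ i, IsRep (w i) := fun i => sL_isRep π i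
  have hgap := three_gap (w := w) (isHeis π 0) (isHeis π 1) (isHeis π 2)
  set Q : B := ∑ i, (1 - avg (w i)) with hQ
  have hQ0 : 0 ≤ Q := Finset.sum_nonneg fun i _ => isRep_proj_nonneg (hrep i)
  obtain ⟨P, hP, hPs, hQP, hcP⟩ := exists_proj (c := 1 - 2 * ep) (by linarith [ep_lt]) hQ0 hgap
  -- absorption
  have habs1 : Subgroup.closure Tx ≤ absorb BX.algRoe π P := by
    rw [Subgroup.closure_le]
    rintro _ ⟨p, rfl⟩
    exact ⟨tx_ok (Sum.inl p), absorb_gen hrep hPs hQP p.1 p.2⟩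
  have habs2 : ∀ e : ℕ, sgx e ∈ okS → sgx e ∈ absorb BX.algRoe π P := by
    intro e he
    refine sparse_absorb BX.algRoe π P MM_ok hP hPs (Sigma.fst : Px → ℕ) ?_ ?_ (sgx e) he
      (sgx_fst e) Yx ?_ (lm hx) (habs1 ?_) hsep_x
    · intro n
      have : {x : Px | x.1 < n} = ⋃ i ∈ Finset.range n, {x : Px | x.1 = i} := by
        ext x; simp
      rw [this]
      exact Set.Finite.biUnion (Finset.finite_toSet _) fun i _ => Px_fin i
    · intro x y hxy
      obtain ⟨τ, hτ, h⟩ := trans_x x y hxy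
      exact ⟨τ, habs1 hτ, h⟩
    · intro x hxY
      apply sgf_fix
      intro m k hk hh
      exact hxY ⟨m, k, hk, hh⟩
    · rw [hx_eq, lm_mul, lm_mul]
      exact mul_mem (mul_mem (lm_sx_mem _ _) (lm_sx_mem _ _)) (lm_sx_mem _ _)
  -- the Laplacian
  have hD : π Dx = (5 : ℂ) • Q + ∑ e : Fin 2, (1 - WW π ⟨sgx e, tx_ok (Sum.inr e)⟩) := by
    have e1 : Dx = ∑ j : Jx, (1 - ⟨UU (tx j), tx_ok j⟩ : BX.algRoe) := by
      apply Subtype.ext
      show Lx = _
      rw [AddSubmonoidClass.coe_finsetSum, Lx]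
      rfl
    rw [e1, map_sum, Fintype.sum_sum_type, Fintype.sum_prod_type]
    congr 1
    · rw [hQ, Finset.smul_sum]
      apply Finset.sum_congr rfl
      intro i _
      rw [← five_avg]
      apply Finset.sum_congr rfl
      intro k _
      rw [map_sub, map_one]
      rfl
    · apply Finset.sum_congr rfl
      intro e _
      rw [map_sub, map_one]
      rfl
  have hb0 : ∀ e : Fin 2, 0 ≤ 1 - WW π ⟨sgx e, tx_ok (Sum.inr e)⟩ := by
    intro e
    have hs : (⟨sgx e, tx_ok (Sum.inr e)⟩ : okS)⁻¹ = ⟨sgx e, tx_ok (Sum.inr e)⟩ := rfl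
    apply invol_nonneg
    · rw [← map_mul]
      conv_lhs => rw [← hs]
      rw [hs]
      have : (⟨sgx e, tx_ok (Sum.inr e)⟩ : okS) * ⟨sgx e, tx_ok (Sum.inr e)⟩ = 1 := by
        conv_lhs => arg 1; rw [← hs]
        exact inv_mul_cancel _
      rw [this, map_one]
    · rw [WW_star, hs]
  have hbP : ∀ e : Fin 2, (1 - WW π ⟨sgx e, tx_ok (Sum.inr e)⟩) * P = 0 := by
    intro e
    obtain ⟨h1, h2⟩ := habs2 e (tx_ok (Sum.inr e))
    rw [sub_mul, one_mul, sub_eq_zero]
    exact h2.symm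
  have hfin := final_spec (a := (5 : ℂ) • Q)
    (b := ∑ e : Fin 2, (1 - WW π ⟨sgx e, tx_ok (Sum.inr e)⟩)) (P := P)
    hc0 hP hPs ?_ ?_ ?_ (Finset.sum_nonneg fun e _ => hb0 e) ?_
  · rw [← hD] at hfin
    intro r hr
    rcases hfin r hr with h | h
    · left; exact h
    · right; exact h
  · rw [show (5 : ℂ) • Q = (5 : ℝ) • Q by rw [← Complex.coe_smul]; norm_num]
    exact smul_nonneg (by norm_num) hQ0
  · rw [smul_mul_assoc, hQP, smul_zero]
  · rw [← sub_nonneg]
    have : (5 : ℂ) • Q - ((5 * (1 - 2 * ep) : ℝ) : ℂ) • (1 - P)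
        = (5 : ℝ) • (Q - ((1 - 2 * ep : ℝ) : ℂ) • (1 - P)) := by
      rw [← Complex.coe_smul (5 : ℝ)]
      push_cast
      module
    rw [this]
    exact smul_nonneg (by norm_num) (sub_nonneg.mpr hcP)
  · rw [Finset.sum_mul]
    exact Finset.sum_eq_zero fun e _ => hbP e

/-- All blocks are connected. -/
theorem BX_connected (m : ℕ) : (BX.G m).Connected := by
  have key : ∀ g : Vx m, ∀ x : Vx m, (BX.G m).Reachable x (g * x) := by
    rintro ⟨g, hg⟩
    induction hg using Subgroup.closure_induction with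
    | mem g hg =>
      obtain ⟨p, rfl⟩ := hg
      intro x
      by_cases h : x = sx p.1 p.2 m * x
      · have : (BX.G m).Reachable x (sx p.1 p.2 m * x) := by
          rw [← h]
        exact this
      · have : (BX.G m).Adj x (sx p.1 p.2 m * x) := ⟨h, Sum.inl p, rfl⟩
        exact this.reachable
    | one =>
      intro x
      have : (⟨1, one_mem _⟩ : Vx m) * x = x := one_mul x
      rw [this]
    | mul a b ha hb iha ihb =>
      intro x
      have : (⟨a * b, mul_mem ha hb⟩ : Vx m) * x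
          = (⟨a, ha⟩ : Vx m) * ((⟨b, hb⟩ : Vx m) * x) :=
        mul_assoc (⟨a, ha⟩ : Vx m) (⟨b, hb⟩ : Vx m) x
      rw [this]
      exact (ihb x).trans (iha _)
    | inv a ha iha =>
      intro x
      have h1 := iha ((⟨a, ha⟩ : Vx m)⁻¹ * x)
      rw [mul_inv_cancel_left] at h1
      exact h1.symm
  haveI : Nonempty (Vx m) := ⟨1⟩
  exact ⟨fun x y => by
    have := key (y * x⁻¹) x
    rwa [inv_mul_cancel_right] at this⟩

end Pool.Agent.H494R3.GT
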